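import Pool.Agent.H940.LT.Reg

set_option autoImplicit false
set_option linter.unusedSectionVars false

/-! # Forms with isolated locally quasi-homogeneous singularities are of linear type -/

namespace Pool.Agent.H940.LT

open MvPolynomial
open Pool.Agent.TH144.MB (NZ lin)

variable {n : ℕ}

/-- an equation of the dual hypersurface -/
theorem exists_dual (f : MvPolynomial (Fin (n + 1)) ℂ) (hf : f ≠ 0) :
    ∃ Φ : MvPolynomial (Fin (n + 1)) ℂ, Φ ≠ 0 ∧ f ∣ aeval (fun i => pderiv i f) Φ := by
  classical
  set x : Fin (n + 2) → MvPolynomial (Fin (n + 1)) ℂ := Fin.cons f fun i => pderiv i f with hx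
  have h1 : ¬ AlgebraicIndependent ℂ x := by
    intro h
    have h2 := h.cardinalMk_le_trdeg
    rw [MvPolynomial.trdeg_of_isDomain] at h2
    simp at h2
    have h3 : n + 1 + 1 ≤ n + 1 := by exact_mod_cast h2
    omega
  rw [algebraicIndependent_iff] at h1
  push Not at h1
  obtain ⟨Ψ, h2, h3⟩ := h1
  set F := finSuccEquiv ℂ (n + 1) Ψ with hF
  have hF0 : F ≠ 0 := by
    intro h
    exact h3 ((finSuccEquiv ℂ (n + 1)).injective (by rw [← hF, h, map_zero]))
  have h4 : ∑ j ∈ Finset.range (F.natDegree + 1),
      aeval (fun i => pderiv i f) (F.coeff j) * f ^ j = 0 := by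
    have h5 : ∀ Ψ : MvPolynomial (Fin (n + 2)) ℂ, aeval x Ψ =
        Polynomial.eval₂ (aeval fun i => pderiv i f : MvPolynomial (Fin (n + 1)) ℂ →ₐ[ℂ]
          MvPolynomial (Fin (n + 1)) ℂ).toRingHom f (finSuccEquiv ℂ (n + 1) Ψ) := by
      intro Ψ
      induction Ψ using MvPolynomial.induction_on with
      | C a =>
        rw [fse_C, Polynomial.eval₂_C, algHom_C]
        exact (algHom_C _ a).symm
      | add p q hp hq => rw [map_add, map_add, Polynomial.eval₂_add, hp, hq]
      | mul_X p i hp =>
        rw [map_mul, map_mul, Polynomial.eval₂_mul, hp, aeval_X]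
        congr 1
        induction i using Fin.cases with
        | zero => rw [finSuccEquiv_X_zero, Polynomial.eval₂_X, hx, Fin.cons_zero]
        | succ i =>
          rw [finSuccEquiv_X_succ, Polynomial.eval₂_C, hx, Fin.cons_succ]
          exact (aeval_X (R := ℂ) (fun i => pderiv i f) i).symm
    rw [h5, Polynomial.eval₂_eq_sum_range] at h2
    exact h2
  refine ⟨F.coeff F.natTrailingDegree, ?_, ?_⟩
  · exact Polynomial.coeff_natTrailingDegree_eq_zero.not.2 hF0
  · set k := F.natTrailingDegree with hk
    have h5 : ∑ j ∈ Finset.range (F.natDegree + 1),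
        aeval (fun i => pderiv i f) (F.coeff j) * f ^ j =
        f ^ k * ∑ j ∈ Finset.range (F.natDegree + 1),
          aeval (fun i => pderiv i f) (F.coeff j) * f ^ (j - k) := by
      rw [Finset.mul_sum]
      refine Finset.sum_congr rfl fun j _ => ?_
      by_cases hj : j < k
      · rw [Polynomial.coeff_eq_zero_of_lt_natTrailingDegree hj, map_zero]
        ring
      · have : f ^ j = f ^ k * f ^ (j - k) := by
          rw [← pow_add]
          congr 1
          omega
        rw [this]
        ring
    rw [h5] at h4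
    have h6 := (mul_eq_zero.1 h4).resolve_left (pow_ne_zero _ hf)
    have hkm : k ∈ Finset.range (F.natDegree + 1) :=
      Finset.mem_range.2 (Nat.lt_succ_of_le (Polynomial.natTrailingDegree_le_natDegree F))
    rw [← Finset.add_sum_erase _ _ hkm, Nat.sub_self, pow_zero, mul_one] at h6
    have h7 : aeval (fun i => pderiv i f) (F.coeff k) =
        -∑ j ∈ (Finset.range (F.natDegree + 1)).erase k,
          aeval (fun i => pderiv i f) (F.coeff j) * f ^ (j - k) := by
      linear_combination h6
    rw [h7, dvd_neg]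
    refine Finset.dvd_sum fun j hj => ?_
    rw [Finset.mem_erase] at hj
    by_cases hj2 : j < k
    · rw [Polynomial.coeff_eq_zero_of_lt_natTrailingDegree hj2, map_zero, zero_mul]
      exact dvd_zero _
    · exact Dvd.dvd.mul_left (dvd_pow_self _ (by omega)) _

/-- a good hyperplane -/
theorem exists_hyp (f : MvPolynomial (Fin (n + 1)) ℂ) (hf : f ≠ 0)
    (S : Finset (Fin (n + 1) → ℂ)) (hS : ∀ p ∈ S, p ≠ 0) :
    ∃ l : Fin (n + 1) → ℂ, l 0 ≠ 0 ∧ (∀ p ∈ S, ∑ i, l i * p i ≠ 0) ∧
      ∃ Φ : MvPolynomial (Fin (n + 1)) ℂ, eval l Φ ≠ 0 ∧ f ∣ aeval (fun i => pderiv i f) Φ := by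
  classical
  obtain ⟨Φ, h1, h2⟩ := exists_dual f hf
  set L : (Fin (n + 1) → ℂ) → MvPolynomial (Fin (n + 1)) ℂ := fun p => ∑ i, C (p i) * X i with hL
  have hL0 : ∀ p ∈ S, L p ≠ 0 := by
    intro p hp h
    apply hS p hp
    funext i
    have h3 : coeff (Finsupp.single i 1) (L p) = p i := by
      rw [hL]
      simp only [coeff_sum, coeff_C_mul]
      rw [Finset.sum_eq_single i]
      · simp
      · intro j _ hj
        rw [coeff_X, if_neg, mul_zero]
        intro h
        exact hj ((Finsupp.single_left_inj one_ne_zero).1 h)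
      · intro h
        exact absurd (Finset.mem_univ i) h
    rw [← h3, h, coeff_zero, Pi.zero_apply]
  have h3 : Φ * X 0 * ∏ p ∈ S, L p ≠ 0 :=
    mul_ne_zero (mul_ne_zero h1 (X_ne_zero 0)) (Finset.prod_ne_zero_iff.2 hL0)
  obtain ⟨l, hl⟩ : ∃ l : Fin (n + 1) → ℂ, eval l (Φ * X 0 * ∏ p ∈ S, L p) ≠ 0 := by
    by_contra hc
    push Not at hc
    exact h3 (MvPolynomial.funext fun l => by rw [hc l, map_zero])
  rw [map_mul, map_mul, eval_X, map_prod] at hl
  have h4 := left_ne_zero_of_mul hl
  have h5 := right_ne_zero_of_mul hl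
  rw [Finset.prod_ne_zero_iff] at h5
  refine ⟨l, right_ne_zero_of_mul h4, fun p hp => ?_, Φ, left_ne_zero_of_mul h4, h2⟩
  have h6 := h5 p hp
  rw [hL] at h6
  simp only [map_sum, map_mul, eval_C, eval_X] at h6
  intro h
  apply h6
  rw [← h]
  exact Finset.sum_congr rfl fun i _ => mul_comm _ _

theorem euler_hom (f : MvPolynomial (Fin (n + 1)) ℂ) (d : ℕ) (hf : f.IsHomogeneous d) :
    ∑ i, X i * pderiv i f = C (d : ℂ) * f := by
  have h := hf.sum_X_mul_pderiv
  rw [h, nsmul_eq_mul, map_natCast]

theorem eval_homog (f : MvPolynomial (Fin (n + 1)) ℂ) (d : ℕ) (hf : f.IsHomogeneous d)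
    (c : ℂ) (q : Fin (n + 1) → ℂ) : eval (c • q) f = c ^ d * eval q f := by
  rw [eval_eq', eval_eq', Finset.mul_sum]
  refine Finset.sum_congr rfl fun α hα => ?_
  have h1 : ∑ i, α i = d := by
    have := hf (mem_support_iff.1 hα)
    rw [Finsupp.weight_apply, Finsupp.sum_fintype _ _ (by simp)] at this
    simpa using this
  have h2 : ∏ i, (c • q) i ^ α i = c ^ d * ∏ i, q i ^ α i := by
    rw [← h1, ← Finset.prod_pow_eq_pow_sum, ← Finset.prod_mul_distrib]
    exact Finset.prod_congr rfl fun i _ => by rw [Pi.smul_apply, smul_eq_mul, mul_pow]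
  rw [h2]
  ring

/-- **Linear type.** Let `f` be a form such that the projective hypersurface `f = 0` has finitely
many singular points, and at every one `f` is in the ideal generated by the products of the
partial derivatives and the functions that vanish at the point. Then the Jacobian ideal is of
linear type. -/
theorem hom_lty (f : MvPolynomial (Fin (n + 1)) ℂ) (hf : f ≠ 0) (d : ℕ) (hd : 2 ≤ d)
    (hfd : f.IsHomogeneous d) (S : Finset (Fin (n + 1) → ℂ)) (hS : ∀ p ∈ S, p ≠ 0)
    (hfin : ∀ q : Fin (n + 1) → ℂ, q ≠ 0 → (∀ i, eval q (pderiv i f) = 0) →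
      ∃ p ∈ S, ∃ c : ℂ, q = c • p)
    (hqh : ∀ q : Fin (n + 1) → ℂ, q ≠ 0 → (∀ i, eval q (pderiv i f) = 0) →
      ∃ (u : MvPolynomial (Fin (n + 1)) ℂ) (a : Fin (n + 1) → MvPolynomial (Fin (n + 1)) ℂ),
        eval q u ≠ 0 ∧ (∀ i, eval q (a i) = 0) ∧ u * f = ∑ i, a i * pderiv i f) :
    LTy fun i => pderiv i f := by
  classical
  obtain ⟨l, hl0, hlS, Φ, hΦl, hΦ⟩ := exists_hyp f hf S hS
  set lam : Fin n → ℂ := fun j => l j.succ / l 0 with hlam
  set l1 : Fin (n + 1) → ℂ := Fin.cons 1 lam with hl1
  have hll : ∀ i, l i = l 0 * l1 i := by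
    intro i
    induction i using Fin.cases with
    | zero => rw [hl1, Fin.cons_zero, mul_one]
    | succ i => rw [hl1, Fin.cons_succ, hlam]; field_simp
  set h0 := pderiv 0 f with hh0
  set h : Fin n → MvPolynomial (Fin (n + 1)) ℂ := fun j => pderiv j.succ f - C (lam j) * h0 with hh
  have hd0 : (d : ℂ) ≠ 0 := by
    have : d ≠ 0 := by omega
    exact_mod_cast this
  -- Euler
  have heul : C (d : ℂ) * f = lin l1 * h0 + ∑ j : Fin n, X j.succ * h j := by
    rw [← euler_hom f d hfd, Fin.sum_univ_succ]
    unfold lin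
    rw [Fin.sum_univ_succ, hl1, Fin.cons_zero, map_one, one_mul, add_mul, add_assoc,
      Finset.sum_mul, ← Finset.sum_add_distrib]
    congr 1
    refine Finset.sum_congr rfl fun j _ => ?_
    rw [Fin.cons_succ, hh]
    ring
  -- gradient at the zeros of `h`
  have hgrad : ∀ q : Fin (n + 1) → ℂ, (∀ j, eval q (h j) = 0) →
      ∀ i, eval q (pderiv i f) = eval q h0 * l1 i := by
    intro q hq i
    induction i using Fin.cases with
    | zero => rw [hl1, Fin.cons_zero, mul_one]
    | succ i =>
      have := hq i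
      rw [hh] at this
      simp only [map_sub, map_mul, eval_C] at this
      rw [hl1, Fin.cons_succ]
      linear_combination this
  -- the regular sequence
  have hreg := regF_line h (fun _ => d - 1) (fun j => (hfd.pderiv).sub (by
      have := (isHomogeneous_C (Fin (n + 1)) (lam j)).mul (hfd.pderiv (i := 0))
      rwa [zero_add] at this)) (fun _ => by omega) l1 (by
    intro q hq1 hq2
    by_contra hq0
    have h1 := hgrad q hq2
    have h2 : eval q f = 0 := by
      have h3 := congrArg (eval q) heul
      rw [map_mul, eval_C, map_add, map_mul, hq1, zero_mul, zero_add, map_sum] at h3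
      rw [Finset.sum_eq_zero fun j _ => by rw [map_mul, hq2 j, mul_zero]] at h3
      exact (mul_eq_zero.1 h3).resolve_left hd0
    by_cases hc : eval q h0 = 0
    · obtain ⟨p, hp, c, hpc⟩ := hfin q hq0 fun i => by rw [h1 i, hc, zero_mul]
      have hc0 : c ≠ 0 := by
        rintro rfl
        exact hq0 (by rw [hpc, zero_smul])
      apply hlS p hp
      have h4 : ∑ i, l i * p i = l 0 * ∑ i, l1 i * p i := by
        rw [Finset.mul_sum]
        exact Finset.sum_congr rfl fun i _ => by rw [hll i]; ring
      rw [h4]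
      rw [Pool.Agent.TH144.MB.eval_lin, hpc] at hq1
      have h5 : ∑ i, l1 i * (c • p) i = c * ∑ i, l1 i * p i := by
        rw [Finset.mul_sum]
        exact Finset.sum_congr rfl fun i _ => by rw [Pi.smul_apply, smul_eq_mul]; ring
      rw [h5] at hq1
      rw [(mul_eq_zero.1 hq1).resolve_left hc0, mul_zero]
    · -- scale `q`
      obtain ⟨μ, hμ⟩ := IsAlgClosed.exists_pow_nat_eq (l 0 / eval q h0) (n := d - 1) (by omega)
      obtain ⟨T, hT⟩ := hΦ
      apply hΦl
      have h6 := congrArg (eval (μ • q)) hT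
      rw [map_mul, eval_homog f d hfd, h2, mul_zero, zero_mul] at h6
      rw [← h6]
      have h7 : (eval (μ • q)).comp (aeval fun i => pderiv i f :
          MvPolynomial (Fin (n + 1)) ℂ →ₐ[ℂ] MvPolynomial (Fin (n + 1)) ℂ).toRingHom =
          eval l := by
        apply ringHom_ext
        · intro r
          simp
        · intro i
          simp only [AlgHom.toRingHom_eq_coe, RingHom.coe_comp, RingHom.coe_coe,
            Function.comp_apply, aeval_X, eval_X]
          rw [eval_homog _ (d - 1) hfd.pderiv, hμ, h1 i, hll i]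
          field_simp
      exact (RingHom.congr_fun h7 Φ).symm)
  obtain ⟨hregF, hNZ⟩ := hreg
  set I := Ideal.span (Set.range h) with hI
  have hmemI : ∀ j, h j ∈ I := fun j => Ideal.subset_span ⟨j, rfl⟩
  -- saturation
  set J : Ideal (MvPolynomial (Fin (n + 1)) ℂ) :=
    Submodule.comap (LinearMap.mulRight (MvPolynomial (Fin (n + 1)) ℂ) h0) I with hJ
  have hJmem : ∀ c, c ∈ J ↔ c * h0 ∈ I := fun c => Iff.rfl
  set A := J ⊔ (Ideal.span {h0} ⊔ I) with hA
  have hlA : lin l1 ∈ A.radical := by
    rw [← vanishingIdeal_zeroLocus_eq_radical (K := ℂ)]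
    intro q hq
    rw [mem_zeroLocus_iff] at hq
    have h1 : ∀ j, eval q (h j) = 0 := fun j =>
      hq (h j) (Ideal.mem_sup_right (Ideal.mem_sup_right (hmemI j)))
    have h2 : eval q h0 = 0 :=
      hq h0 (Ideal.mem_sup_right (Ideal.mem_sup_left (Ideal.mem_span_singleton_self h0)))
    by_cases hq0 : q = 0
    · change eval q (lin l1) = 0
      rw [hq0, Pool.Agent.TH144.MB.eval_lin]
      simp
    · exfalso
      have h3 : ∀ i, eval q (pderiv i f) = 0 := fun i => by rw [hgrad q h1 i, h2, zero_mul]
      obtain ⟨u, a, hu, ha, hua⟩ := hqh q hq0 h3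
      set b := a 0 + ∑ j : Fin n, C (lam j) * a j.succ with hb
      have h4 : (u * lin l1 - C (d : ℂ) * b) * h0 ∈ I := by
        have h5 : (u * lin l1 - C (d : ℂ) * b) * h0 =
            ∑ j : Fin n, (C (d : ℂ) * a j.succ - u * X j.succ) * h j := by
          have h6 : u * (lin l1 * h0 + ∑ j : Fin n, X j.succ * h j) =
              C (d : ℂ) * (b * h0 + ∑ j : Fin n, a j.succ * h j) := by
            rw [← heul]
            have h7 : ∑ i, a i * pderiv i f = b * h0 + ∑ j : Fin n, a j.succ * h j := by
              rw [Fin.sum_univ_succ, hb, add_mul, add_assoc, Finset.sum_mul,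
                ← Finset.sum_add_distrib]
              congr 1
              refine Finset.sum_congr rfl fun j _ => ?_
              rw [hh]
              ring
            rw [← h7, ← hua]
            ring
          have h8 : ∑ j : Fin n, (C (d : ℂ) * a j.succ - u * X j.succ) * h j =
              C (d : ℂ) * (∑ j : Fin n, a j.succ * h j) - u * ∑ j : Fin n, X j.succ * h j := by
            rw [Finset.mul_sum, Finset.mul_sum, ← Finset.sum_sub_distrib]
            exact Finset.sum_congr rfl fun j _ => by ring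
          rw [h8]
          linear_combination h6
        rw [h5]
        exact Ideal.sum_mem _ fun j _ => Ideal.mul_mem_left _ _ (hmemI j)
      have h9 := hq _ (Ideal.mem_sup_left ((hJmem _).2 h4))
      change eval q (u * lin l1 - C (d : ℂ) * b) = 0 at h9
      have hb0 : eval q b = 0 := by
        rw [hb, map_add, ha 0, zero_add, map_sum]
        exact Finset.sum_eq_zero fun j _ => by rw [map_mul, ha, mul_zero]
      rw [map_sub, map_mul, map_mul, hb0, mul_zero, sub_zero] at h9
      have hlq : eval q (lin l1) ≠ 0 := by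
        obtain ⟨p, hp, c, hpc⟩ := hfin q hq0 h3
        have hc0 : c ≠ 0 := by
          rintro rfl
          exact hq0 (by rw [hpc, zero_smul])
        intro h10
        apply hlS p hp
        have h4 : ∑ i, l i * p i = l 0 * ∑ i, l1 i * p i := by
          rw [Finset.mul_sum]
          exact Finset.sum_congr rfl fun i _ => by rw [hll i]; ring
        rw [h4]
        rw [Pool.Agent.TH144.MB.eval_lin, hpc] at h10
        have h5 : ∑ i, l1 i * (c • p) i = c * ∑ i, l1 i * p i := by
          rw [Finset.mul_sum]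
          exact Finset.sum_congr rfl fun i _ => by rw [Pi.smul_apply, smul_eq_mul]; ring
        rw [h5] at h10
        rw [(mul_eq_zero.1 h10).resolve_left hc0, mul_zero]
      exact (mul_ne_zero hu hlq) h9
  obtain ⟨M, hM⟩ := hlA
  have hsat : ∀ (c : MvPolynomial (Fin (n + 1)) ℂ) (m : ℕ), c * h0 ^ (m + 1) ∈ I →
      c * h0 ∈ I := by
    obtain ⟨x, hx, y, hy, hxy⟩ := Submodule.mem_sup.1 hM
    obtain ⟨z, hz, t, ht, hzt⟩ := Submodule.mem_sup.1 hy
    obtain ⟨v, rfl⟩ := Ideal.mem_span_singleton'.1 hz
    intro c m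
    induction m with
    | zero =>
      intro h1
      rwa [zero_add, pow_one] at h1
    | succ m ih =>
      intro h1
      refine ih (hNZ.pow M _ ?_)
      have h2 : lin l1 ^ M * (c * h0 ^ (m + 1)) =
          (c * h0 ^ m) * (x * h0) + v * (c * h0 ^ (m + 1 + 1)) + (c * h0 ^ (m + 1)) * t := by
        rw [← hxy, ← hzt]
        ring
      rw [h2]
      exact Ideal.add_mem _ (Ideal.add_mem _ (Ideal.mul_mem_left _ _ ((hJmem x).1 hx))
        (Ideal.mul_mem_left _ _ h1)) (Ideal.mul_mem_left _ _ ht)
  have hL := lty_cons h0 h hregF.lty (qr_of _ hregF.lty hregF.kos.kw) hsat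
  refine hL.matrix
    (Fin.cons (Fin.cons 1 0) fun j => Fin.cons (C (lam j)) (Pi.single j 1))
    (Fin.cons (Fin.cons 1 0) fun j => Fin.cons (-C (lam j)) (Pi.single j 1)) ?_ ?_ ?_
  · intro i
    rw [Fin.sum_univ_succ]
    induction i using Fin.cases with
    | zero => simp [hh0]
    | succ i =>
      simp only [Fin.cons_succ, Fin.cons_zero]
      simp only [Pi.single_apply, ite_mul, one_mul, zero_mul]
      rw [Finset.sum_ite_eq' Finset.univ i, if_pos (Finset.mem_univ i)]
      rw [hh]
      ring
  · intro i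
    rw [Fin.sum_univ_succ]
    induction i using Fin.cases with
    | zero => simp [hh0]
    | succ i =>
      simp only [Fin.cons_succ, Fin.cons_zero]
      simp only [Pi.single_apply, ite_mul, one_mul, zero_mul]
      rw [Finset.sum_ite_eq' Finset.univ i, if_pos (Finset.mem_univ i)]
      rw [hh]
      ring
  · intro i k
    rw [Fin.sum_univ_succ]
    induction i using Fin.cases with
    | zero =>
      induction k using Fin.cases with
      | zero => simp
      | succ k => simp [(Fin.succ_ne_zero k).symm]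
    | succ i =>
      simp only [Fin.cons_succ, Fin.cons_zero]
      simp only [Pi.single_apply, ite_mul, one_mul, zero_mul]
      rw [Finset.sum_ite_eq' Finset.univ i, if_pos (Finset.mem_univ i)]
      induction k using Fin.cases with
      | zero => simp
      | succ k => simp [Pi.single_apply, Fin.succ_inj, eq_comm]

end Pool.Agent.H940.LT
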