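import Pool.Agent.H940.LT.Op

set_option autoImplicit false
set_option linter.unusedSectionVars false

/-! # The root `-|w| / N`, or a vector field -/

namespace Pool.Agent.H940.LT

open MvPolynomial
open Pool.Agent.H628R4.TP (weylS)

section lty

variable {σ : Type} [Fintype σ] {R : Type} [CommRing R]

/-- the linear form with the coefficients `η_i` -/
noncomputable def linF (η : σ → R) : MvPolynomial σ R := ∑ i, C (η i) * X i

/-- the ideal generated by the linear forms `∑ η_i X_i` with `∑ η_i g_i = 0` -/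
noncomputable def LinI (g : σ → R) : Ideal (MvPolynomial σ R) :=
  Ideal.span {L | ∃ η : σ → R, ∑ i, η i * g i = 0 ∧ L = linF η}

/-- The family `g` is of linear type: the homogeneous polynomials which vanish at `g` are in the
ideal generated by the linear ones. -/
def LTy (g : σ → R) : Prop :=
  ∀ (m : ℕ) (Φ : MvPolynomial σ R), Φ.IsHomogeneous m → eval g Φ = 0 → Φ ∈ LinI g

theorem linF_hom (η : σ → R) : (linF η).IsHomogeneous 1 := by
  unfold linF
  refine IsHomogeneous.sum _ _ _ fun i _ => ?_
  have := (isHomogeneous_C σ (η i)).mul (isHomogeneous_X R i)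
  rwa [zero_add] at this

/-- sums of the terms `X ^ γ L` -/
noncomputable def Rk (g : σ → R) (k : ℕ) : AddSubmonoid (MvPolynomial σ R) :=
  AddSubmonoid.closure {Θ | ∃ (γ : σ →₀ ℕ) (η : σ → R), γ.degree = k ∧ ∑ i, η i * g i = 0 ∧
    Θ = monomial γ 1 * linF η}

theorem linF_smul (r : R) (η : σ → R) : linF (fun i => r * η i) = C r * linF η := by
  unfold linF
  rw [Finset.mul_sum]
  refine Finset.sum_congr rfl fun i _ => ?_
  rw [map_mul]
  ring

theorem homComp_mul_linF (a : MvPolynomial σ R) (η : σ → R) (k : ℕ) :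
    homogeneousComponent (k + 1) (a * linF η) = homogeneousComponent k a * linF η := by
  have h1 : a * linF η = ∑ i ∈ Finset.range (a.totalDegree + 1),
      homogeneousComponent i a * linF η := by
    rw [← Finset.sum_mul, sum_homogeneousComponent]
  have h2 : ∀ i, homogeneousComponent (k + 1) (homogeneousComponent i a * linF η) =
      if i = k then homogeneousComponent k a * linF η else 0 := by
    intro i
    have h3 := (homogeneousComponent_isHomogeneous i a).mul (linF_hom η)
    rw [homogeneousComponent_of_mem h3]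
    by_cases hik : i = k
    · subst hik
      rw [if_pos rfl, if_pos rfl]
    · rw [if_neg, if_neg hik]
      omega
  rw [h1, map_sum, Finset.sum_congr rfl fun i _ => h2 i, Finset.sum_ite_eq']
  split_ifs with h
  · rfl
  · rw [Finset.mem_range, not_lt] at h
    rw [homogeneousComponent_eq_zero k a (by omega), zero_mul]

theorem homComp_mem (g : σ → R) (Θ : MvPolynomial σ R) (hΘ : Θ ∈ LinI g) (k : ℕ) :
    homogeneousComponent (k + 1) Θ ∈ Rk g k := by
  classical
  unfold LinI at hΘ
  have key : ∀ a : MvPolynomial σ R, homogeneousComponent (k + 1) (a * Θ) ∈ Rk g k := by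
    induction hΘ using Submodule.span_induction with
    | mem L h =>
      intro a
      obtain ⟨η, hη, rfl⟩ := h
      rw [homComp_mul_linF, homogeneousComponent_apply, Finset.sum_mul]
      refine AddSubmonoid.sum_mem _ fun γ hγ => ?_
      refine AddSubmonoid.subset_closure ⟨γ, fun i => coeff γ a * η i,
        (Finset.mem_filter.1 hγ).2, ?_, ?_⟩
      · rw [← mul_zero (coeff γ a), ← hη, Finset.mul_sum]
        exact Finset.sum_congr rfl fun i _ => mul_assoc _ _ _
      · rw [linF_smul, ← mul_assoc, mul_comm (monomial γ 1), C_mul_monomial, mul_one]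
    | zero =>
      intro a
      rw [mul_zero, map_zero]
      exact AddSubmonoid.zero_mem _
    | add x y _ _ hx hy =>
      intro a
      rw [mul_add, map_add]
      exact AddSubmonoid.add_mem _ (hx a) (hy a)
    | smul b x _ hx =>
      intro a
      rw [smul_eq_mul, ← mul_assoc]
      exact hx _
  have := key 1
  rwa [one_mul] at this

end lty

section symbol

variable {σ : Type} [Fintype σ] [DecidableEq σ]

/-- one more derivative in the symbol -/
theorem sym_D (f u : MvPolynomial σ ℂ) (β : σ →₀ ℕ) :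
    ∃ a : ℕ → MvPolynomial σ ℂ, (∀ j, β.degree < j → a j = 0) ∧
      a β.degree = u * ∏ i, (pderiv i f) ^ (β i) ∧
      ∀ s : ℕ, f ^ β.degree * D β (u * f ^ s) =
        (∑ j ∈ Finset.range (β.degree + 1), C ((s : ℂ) ^ j) * a j) * f ^ s := by
  have key : ∀ k : ℕ, ∀ β : σ →₀ ℕ, β.degree = k →
      ∃ a : ℕ → MvPolynomial σ ℂ, (∀ j, k < j → a j = 0) ∧
      a k = u * ∏ i, (pderiv i f) ^ (β i) ∧
      ∀ s : ℕ, f ^ k * D β (u * f ^ s) =
        (∑ j ∈ Finset.range (k + 1), C ((s : ℂ) ^ j) * a j) * f ^ s := by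
    intro k
    induction k with
    | zero =>
      intro β hβ
      rw [Finsupp.degree_eq_zero_iff] at hβ
      subst hβ
      refine ⟨fun j => if j = 0 then u else 0, ?_, ?_, ?_⟩
      · intro j hj
        exact if_neg (by omega)
      · simp
      · intro s
        rw [D_zero, Finset.sum_range_one]
        simp
    | succ k ih =>
      intro β hβ
      have hne : β ≠ 0 := by
        rintro rfl
        simp at hβ
      obtain ⟨i, hi⟩ := Finsupp.ne_iff.1 hne
      have hb : β = (β - Finsupp.single i 1) + Finsupp.single i 1 := by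
        rw [tsub_add_cancel_of_le]
        rw [Finsupp.single_le_iff]
        exact Nat.one_le_iff_ne_zero.2 hi
      have hdeg : (β - Finsupp.single i 1).degree = k := by
        have h1 := congrArg Finsupp.degree hb
        rw [map_add, Finsupp.degree_single, hβ] at h1
        omega
      obtain ⟨a, ha1, ha2, ha3⟩ := ih _ hdeg
      set β' := β - Finsupp.single i 1 with hβ'
      refine ⟨fun j => f * pderiv i (a j) - C (k : ℂ) * pderiv i f * a j +
        pderiv i f * (if j = 0 then 0 else a (j - 1)), ?_, ?_, ?_⟩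
      · intro j hj
        simp only
        rw [ha1 j (by omega), if_neg (by omega), ha1 (j - 1) (by omega)]
        simp
      · simp only
        rw [ha1 (k + 1) (by omega), if_neg (by omega), Nat.add_sub_cancel, ha2]
        have h2 : (∏ j, (pderiv j f) ^ (β j)) = (∏ j, (pderiv j f) ^ (β' j)) * pderiv i f := by
          rw [hb, ← Finset.mul_prod_erase Finset.univ (fun j => (pderiv j f) ^
            ((β' + Finsupp.single i 1 : σ →₀ ℕ) j)) (Finset.mem_univ i),
            ← Finset.mul_prod_erase Finset.univ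
            (fun j => (pderiv j f) ^ (β' j)) (Finset.mem_univ i)]
          have h3 : ∏ j ∈ Finset.univ.erase i, (pderiv j f) ^
              ((β' + Finsupp.single i 1 : σ →₀ ℕ) j) =
              ∏ j ∈ Finset.univ.erase i, (pderiv j f) ^ (β' j) := by
            refine Finset.prod_congr rfl fun j hj => ?_
            rw [Finsupp.add_apply, Finsupp.single_eq_of_ne (Finset.ne_of_mem_erase hj), add_zero]
          rw [h3, Finsupp.add_apply, Finsupp.single_eq_same, pow_succ]
          ring
        rw [h2]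
        simp
        ring
      · intro s
        have h1 := ha3 s
        set G := D β' (u * f ^ s) with hG
        set A := ∑ j ∈ Finset.range (k + 1), C ((s : ℂ) ^ j) * a j with hA
        have h2 : pderiv i (f ^ k * G) = pderiv i (A * f ^ s) := by rw [h1]
        have hpow : ∀ n : ℕ, f * pderiv i (f ^ n) = C (n : ℂ) * pderiv i f * f ^ n := by
          intro n
          rw [pderiv_pow]
          cases n with
          | zero => simp
          | succ n =>
            rw [Nat.add_sub_cancel, map_natCast]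
            ring
        rw [pderiv_mul, pderiv_mul] at h2
        have h3 : f * (pderiv i (f ^ k) * G + f ^ k * pderiv i G) =
            f * (pderiv i A * f ^ s + A * pderiv i (f ^ s)) := by rw [h2]
        have h4 : f ^ (k + 1) * pderiv i G =
            (f * pderiv i A + C (s : ℂ) * pderiv i f * A - C (k : ℂ) * pderiv i f * A) * f ^ s := by
          have h5 : f * (pderiv i (f ^ k) * G + f ^ k * pderiv i G) =
              (f * pderiv i (f ^ k)) * G + f ^ (k + 1) * pderiv i G := by ring
          have h6 : f * (pderiv i A * f ^ s + A * pderiv i (f ^ s)) =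
              f * pderiv i A * f ^ s + A * (f * pderiv i (f ^ s)) := by ring
          rw [h5, h6, hpow, hpow] at h3
          have h7 : C (k : ℂ) * pderiv i f * f ^ k * G = C (k : ℂ) * pderiv i f * (A * f ^ s) := by
            rw [← h1]
            ring
          rw [h7] at h3
          linear_combination h3
        rw [hb, D_succ, h4]
        congr 1
        have h8 : ∑ j ∈ Finset.range (k + 1 + 1), C ((s : ℂ) ^ j) *
            (f * pderiv i (a j) - C (k : ℂ) * pderiv i f * a j +
              pderiv i f * (if j = 0 then 0 else a (j - 1))) =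
            (∑ j ∈ Finset.range (k + 1 + 1), C ((s : ℂ) ^ j) *
            (f * pderiv i (a j) - C (k : ℂ) * pderiv i f * a j)) +
            ∑ j ∈ Finset.range (k + 1 + 1), C ((s : ℂ) ^ j) *
              (pderiv i f * (if j = 0 then 0 else a (j - 1))) := by
          rw [← Finset.sum_add_distrib]
          refine Finset.sum_congr rfl fun j _ => ?_
          ring
        rw [h8, Finset.sum_range_succ, ha1 (k + 1) (by omega), Finset.sum_range_succ'
          (fun j => C ((s : ℂ) ^ j) * (pderiv i f * (if j = 0 then 0 else a (j - 1))))]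
        simp only [map_zero, mul_zero, sub_zero, add_zero, if_true, Nat.add_eq_zero_iff,
          one_ne_zero, and_false, if_false, Nat.add_sub_cancel]
        have h9 : pderiv i A = ∑ j ∈ Finset.range (k + 1), C ((s : ℂ) ^ j) * pderiv i (a j) := by
          rw [hA, map_sum]
          refine Finset.sum_congr rfl fun j _ => ?_
          rw [pderiv_C_mul, C_mul']
        rw [h9, hA, Finset.mul_sum, Finset.mul_sum, Finset.mul_sum, ← Finset.sum_add_distrib,
          ← Finset.sum_sub_distrib, ← Finset.sum_add_distrib]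
        refine Finset.sum_congr rfl fun j _ => ?_
        rw [pow_succ, map_mul]
        ring
  exact key _ β rfl

/-- the symbol of `Lam Φ` -/
theorem sym_Lam (f : MvPolynomial σ ℂ) (m : ℕ) (Φ : MvPolynomial σ (MvPolynomial σ ℂ))
    (hΦ : Φ.totalDegree ≤ m) :
    ∃ b : ℕ → MvPolynomial σ ℂ, b m = eval (fun i => pderiv i f) (homogeneousComponent m Φ) ∧
      ∀ s : ℕ, f ^ m * Lam Φ (f ^ s) =
        (∑ j ∈ Finset.range (m + 1), C ((s : ℂ) ^ j) * b j) * f ^ s := by
  classical
  choose a ha1 ha2 ha3 using fun β : σ →₀ ℕ => sym_D f (coeff β Φ) β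
  have hdeg : ∀ β ∈ Φ.support, β.degree ≤ m := fun β hβ => by
    have h1 := le_totalDegree hβ
    have h2 : β.degree = β.sum fun _ e => e := rfl
    omega
  refine ⟨fun j => ∑ β ∈ Φ.support, f ^ (m - β.degree) * a β j, ?_, fun s => ?_⟩
  · simp only
    rw [homogeneousComponent_apply, map_sum, Finset.sum_filter]
    refine Finset.sum_congr rfl fun β hβ => ?_
    split_ifs with h
    · rw [← h, Nat.sub_self, pow_zero, one_mul, ha2, eval_monomial]
      congr 1
      rw [Finsupp.prod_fintype]
      intro i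
      rw [pow_zero]
    · have := hdeg β hβ
      rw [ha1 β m (by omega), mul_zero]
  · unfold Lam
    rw [Finset.mul_sum]
    have h1 : ∀ β ∈ Φ.support, f ^ m * D β (coeff β Φ * f ^ s) =
        (∑ j ∈ Finset.range (m + 1), C ((s : ℂ) ^ j) * (f ^ (m - β.degree) * a β j)) * f ^ s := by
      intro β hβ
      have h2 := hdeg β hβ
      have h3 : f ^ m = f ^ (m - β.degree) * f ^ β.degree := by
        rw [← pow_add]
        congr 1
        omega
      rw [h3, mul_assoc, ha3, ← mul_assoc, Finset.mul_sum]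
      congr 1
      refine (Finset.sum_subset_zero_on_sdiff (Finset.range_subset_range.2 (by omega)) ?_ ?_)
      · intro j hj
        rw [Finset.mem_sdiff, Finset.mem_range, Finset.mem_range] at hj
        rw [ha1 β j (by omega), mul_zero, mul_zero]
      · intro j _
        ring
    rw [Finset.sum_congr rfl h1, ← Finset.sum_mul, Finset.sum_comm]
    congr 1
    refine Finset.sum_congr rfl fun j _ => ?_
    rw [Finset.mul_sum]

/-- polynomials in `s` which vanish at all the natural numbers -/
theorem coeff_zero_of_forall (m : ℕ) (b : ℕ → MvPolynomial σ ℂ)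
    (h : ∀ s : ℕ, ∑ j ∈ Finset.range (m + 1), C ((s : ℂ) ^ j) * b j = 0) : b m = 0 := by
  classical
  set P : Polynomial (MvPolynomial σ ℂ) :=
    ∑ j ∈ Finset.range (m + 1), Polynomial.monomial j (b j) with hP
  have h1 : P = 0 := by
    refine Polynomial.eq_zero_of_infinite_isRoot P ?_
    refine Set.infinite_of_injective_forall_mem (f := fun s : ℕ =>
      (C (s : ℂ) : MvPolynomial σ ℂ)) ?_ ?_
    · intro s t hst
      have := C_injective σ ℂ hst
      exact_mod_cast this
    · intro s
      change Polynomial.eval _ P = 0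
      rw [hP, Polynomial.eval_finsetSum, ← h s]
      refine Finset.sum_congr rfl fun j _ => ?_
      rw [Polynomial.eval_monomial, map_pow, mul_comm]
  have h2 : P.coeff m = b m := by
    rw [hP, Polynomial.finsetSum_coeff, Finset.sum_eq_single m]
    · rw [Polynomial.coeff_monomial, if_pos rfl]
    · intro j _ hj
      rw [Polynomial.coeff_monomial, if_neg hj]
    · intro h
      exact absurd (Finset.mem_range.2 (by omega)) h
  rw [← h2, h1, Polynomial.coeff_zero]

theorem eval_homComp (f : MvPolynomial σ ℂ) (hf : f ≠ 0) (m : ℕ)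
    (Φ : MvPolynomial σ (MvPolynomial σ ℂ)) (hΦ : Φ.totalDegree ≤ m)
    (h : ∀ s : ℕ, Lam Φ (f ^ s) = 0) :
    eval (fun i => pderiv i f) (homogeneousComponent m Φ) = 0 := by
  obtain ⟨b, hb1, hb2⟩ := sym_Lam f m Φ hΦ
  rw [← hb1]
  refine coeff_zero_of_forall m b fun s => ?_
  have h1 := hb2 s
  rw [h s, mul_zero] at h1
  exact (mul_eq_zero.1 h1.symm).resolve_right (pow_ne_zero _ hf)

/-- the divergence -/
noncomputable def dv (η : σ → MvPolynomial σ ℂ) : MvPolynomial σ ℂ := ∑ i, pderiv i (η i)

theorem dv_add (η θ : σ → MvPolynomial σ ℂ) : dv (η + θ) = dv η + dv θ := by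
  unfold dv
  rw [← Finset.sum_add_distrib]
  exact Finset.sum_congr rfl fun i _ => by rw [Pi.add_apply, map_add]

theorem Lam_linF (η : σ → MvPolynomial σ ℂ) (f : MvPolynomial σ ℂ)
    (hη : ∑ i, η i * pderiv i f = 0) (γ : σ →₀ ℕ) (s : ℕ) :
    Lam (monomial γ 1 * linF η) (f ^ s) = Lam (monomial γ (dv η)) (f ^ s) := by
  have h1 : ∀ i, Lam (monomial γ 1 * (C (η i) * X i)) (f ^ s) =
      D γ (pderiv i (η i * f ^ s)) := by
    intro i
    have : (monomial γ 1 * (C (η i) * X i) : MvPolynomial σ (MvPolynomial σ ℂ)) =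
        X i * (monomial γ (η i)) := by
      rw [← mul_assoc, mul_comm (monomial γ 1), C_mul_monomial, mul_one, mul_comm]
    rw [this, Lam_X_mul, Lam_monomial, D_pderiv]
  unfold linF
  rw [Finset.mul_sum, Lam_sum, Finset.sum_congr rfl fun i _ => h1 i, Lam_monomial, ← map_sum]
  congr 1
  unfold dv
  have h2 : ∀ i, pderiv i (η i * f ^ s) = pderiv i (η i) * f ^ s +
      C (s : ℂ) * f ^ (s - 1) * (η i * pderiv i f) := by
    intro i
    rw [pderiv_mul, pderiv_pow, map_natCast]
    ring
  rw [Finset.sum_congr rfl fun i _ => h2 i, Finset.sum_add_distrib, ← Finset.mul_sum, hη,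
    mul_zero, add_zero, Finset.sum_mul]

/-- elements of `Rk` have a smaller degree up to a divergence -/
theorem Rk_red (f : MvPolynomial σ ℂ) (m : ℕ) (Θ : MvPolynomial σ (MvPolynomial σ ℂ))
    (hΘ : Θ ∈ Rk (fun i => pderiv i f) m) :
    ∃ Φ : MvPolynomial σ (MvPolynomial σ ℂ), Φ.totalDegree ≤ m ∧
      (∀ s : ℕ, Lam Θ (f ^ s) = Lam Φ (f ^ s)) ∧
      ∃ η : σ → MvPolynomial σ ℂ, ∑ i, η i * pderiv i f = 0 ∧ coeff 0 Φ = dv η := by
  classical
  unfold Rk at hΘ
  induction hΘ using AddSubmonoid.closure_induction with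
  | mem Θ h =>
    obtain ⟨γ, η, hγ, hη, rfl⟩ := h
    refine ⟨monomial γ (dv η), ?_, fun s => Lam_linF η f hη γ s, ?_⟩
    · refine (totalDegree_monomial_le _ _).trans ?_
      rw [← hγ]
      rfl
    · by_cases h0 : γ = 0
      · refine ⟨η, hη, ?_⟩
        rw [coeff_monomial, if_pos h0]
      · refine ⟨0, by simp, ?_⟩
        rw [coeff_monomial, if_neg h0]
        unfold dv
        simp
  | zero =>
    refine ⟨0, by simp, fun s => rfl, 0, by simp, ?_⟩
    unfold dv
    simp
  | add x y _ _ hx hy =>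
    obtain ⟨Φ, h1, h2, η, h3, h4⟩ := hx
    obtain ⟨Ψ, h5, h6, θ, h7, h8⟩ := hy
    refine ⟨Φ + Ψ, (totalDegree_add _ _).trans (max_le h1 h5), fun s => ?_, η + θ, ?_, ?_⟩
    · rw [Lam_add, Lam_add, h2, h6]
    · rw [← add_zero (0 : MvPolynomial σ ℂ)]
      nth_rw 1 [← h3]
      rw [← h7, ← Finset.sum_add_distrib]
      exact Finset.sum_congr rfl fun i _ => by rw [Pi.add_apply, add_mul]
    · rw [coeff_add, h4, h8, dv_add]

/-- **An operator which kills all the powers of `f`, when the Jacobian ideal is of linear type.** -/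
theorem exists_field (f : MvPolynomial σ ℂ) (hf : f ≠ 0) (hL : LTy fun i => pderiv i f) :
    ∀ (m : ℕ) (Φ : MvPolynomial σ (MvPolynomial σ ℂ)), Φ.totalDegree ≤ m →
      (∀ s : ℕ, Lam Φ (f ^ s) = 0) →
      ∃ η : σ → MvPolynomial σ ℂ, ∑ i, η i * pderiv i f = 0 ∧ coeff 0 Φ + dv η = 0 := by
  intro m
  induction m with
  | zero =>
    intro Φ hΦ h
    refine ⟨0, by simp, ?_⟩
    have h1 : Φ = C (coeff 0 Φ) := (totalDegree_eq_zero_iff_eq_C.1 (Nat.le_zero.1 hΦ))
    have h2 := h 0
    rw [h1, ← monomial_zero', Lam_monomial, D_zero, pow_zero, mul_one] at h2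
    rw [h2]
    unfold dv
    simp
  | succ m ih =>
    intro Φ hΦ h
    set Θ := homogeneousComponent (m + 1) Φ with hΘ
    have h1 : Θ ∈ LinI fun i => pderiv i f :=
      hL (m + 1) Θ (homogeneousComponent_isHomogeneous _ _) (eval_homComp f hf _ Φ hΦ h)
    have h2 : Θ ∈ Rk (fun i => pderiv i f) m := by
      have := homComp_mem _ Θ h1 m
      rwa [hΘ, homogeneousComponent_of_mem (homogeneousComponent_isHomogeneous (m + 1) Φ),
        if_pos rfl] at this
    obtain ⟨Ψ, h3, h4, η, h5, h6⟩ := Rk_red f m Θ h2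
    have h7 : (Φ - Θ + Ψ).totalDegree ≤ m := by
      refine (totalDegree_add _ _).trans (max_le ?_ h3)
      have h8 : Φ - Θ = ∑ i ∈ Finset.range (m + 1), homogeneousComponent i Φ := by
        have h9 : ∑ i ∈ Finset.range (m + 1 + 1), homogeneousComponent i Φ = Φ := by
          rw [← Finset.sum_subset (Finset.range_subset_range.2
            (show Φ.totalDegree + 1 ≤ m + 1 + 1 by omega)), sum_homogeneousComponent]
          intro j _ hj
          rw [Finset.mem_range, not_lt] at hj
          exact homogeneousComponent_eq_zero _ _ (by omega)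
        rw [Finset.sum_range_succ, ← hΘ] at h9
        linear_combination -h9
      rw [h8]
      refine totalDegree_finsetSum_le fun i hi => ?_
      rw [Finset.mem_range] at hi
      refine (homogeneousComponent_isHomogeneous i Φ).totalDegree_le.trans (by omega)
    have h10 : ∀ s : ℕ, Lam (Φ - Θ + Ψ) (f ^ s) = 0 := by
      intro s
      rw [Lam_add, Lam_sub, h s, h4 s]
      ring
    obtain ⟨θ, h11, h12⟩ := ih _ h7 h10
    refine ⟨η + θ, ?_, ?_⟩
    · rw [← add_zero (0 : MvPolynomial σ ℂ)]
      nth_rw 1 [← h5]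
      rw [← h11, ← Finset.sum_add_distrib]
      exact Finset.sum_congr rfl fun i _ => by rw [Pi.add_apply, add_mul]
    · have h13 : coeff 0 Θ = 0 := by
        refine (homogeneousComponent_isHomogeneous (m + 1) Φ).coeff_eq_zero ?_
        simp
      rw [coeff_add, coeff_sub, h13, h6] at h12
      rw [dv_add, ← h12]
      ring

end symbol

section euler

variable {σ : Type} [Fintype σ] [DecidableEq σ]

/-- `u ↦ ∑ ∂_i (e_i u)` -/
noncomputable def dl (e : σ → MvPolynomial σ ℂ) : MvPolynomial σ ℂ →+ MvPolynomial σ ℂ where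
  toFun u := ∑ i, pderiv i (e i * u)
  map_zero' := by simp
  map_add' u v := by
    rw [← Finset.sum_add_distrib]
    exact Finset.sum_congr rfl fun i _ => by rw [mul_add, map_add]

/-- the operator of multiplication by `s` -/
noncomputable def Sop (e : σ → MvPolynomial σ ℂ) (N : ℂ)
    (Φ : MvPolynomial σ (MvPolynomial σ ℂ)) : MvPolynomial σ (MvPolynomial σ ℂ) :=
  C (C N⁻¹) * ((∑ i, X i * (C (e i) * Φ)) - mapC (dl e) Φ)

theorem Lam_right_add (Φ : MvPolynomial σ (MvPolynomial σ ℂ)) (a b : MvPolynomial σ ℂ) :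
    Lam Φ (a + b) = Lam Φ a + Lam Φ b := by
  unfold Lam
  rw [← Finset.sum_add_distrib]
  refine Finset.sum_congr rfl fun β _ => ?_
  rw [mul_add, map_add]

theorem Lam_right_smul (Φ : MvPolynomial σ (MvPolynomial σ ℂ)) (c : ℂ) (a : MvPolynomial σ ℂ) :
    Lam Φ (c • a) = c • Lam Φ a := by
  unfold Lam
  rw [Finset.smul_sum]
  refine Finset.sum_congr rfl fun β _ => ?_
  rw [mul_smul_comm, map_smul]

theorem Lam_Sop (e : σ → MvPolynomial σ ℂ) (N : ℂ) (hN : N ≠ 0) (f : MvPolynomial σ ℂ)
    (he : ∑ i, e i * pderiv i f = C N * f) (Φ : MvPolynomial σ (MvPolynomial σ ℂ)) (s : ℕ) :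
    Lam (Sop e N Φ) (f ^ s) = (s : ℂ) • Lam Φ (f ^ s) := by
  unfold Sop
  rw [Lam_smul, Lam_sub, Lam_sum]
  have hpow : ∑ i, e i * pderiv i (f ^ s) = C (N * s) * f ^ s := by
    cases s with
    | zero => simp
    | succ s =>
      have h1 : ∀ i, e i * pderiv i (f ^ (s + 1)) =
          C ((s : ℂ) + 1) * f ^ s * (e i * pderiv i f) := by
        intro i
        rw [pderiv_pow, Nat.add_sub_cancel]
        push_cast
        rw [map_add, map_one, map_natCast]
        ring
      rw [Finset.sum_congr rfl fun i _ => h1 i, ← Finset.mul_sum, he]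
      push_cast
      rw [map_mul]
      ring
  have key : ∀ Φ : MvPolynomial σ (MvPolynomial σ ℂ),
      ∑ i, Lam (X i * (C (e i) * Φ)) (f ^ s) - Lam (mapC (dl e) Φ) (f ^ s) =
        Lam Φ (∑ i, e i * pderiv i (f ^ s)) := by
    intro Φ
    induction Φ using MvPolynomial.induction_on' with
    | monomial β u =>
      rw [mapC_monomial, Lam_monomial, Lam_monomial]
      have h1 : ∀ i, Lam (X i * (C (e i) * monomial β u)) (f ^ s) =
          D β (pderiv i (e i * u * f ^ s)) := by
        intro i
        rw [Lam_X_mul, Lam_C_mul, Lam_monomial, D_pderiv]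
        congr 2
        ring
      rw [Finset.sum_congr rfl fun i _ => h1 i, ← map_sum, ← map_sub]
      congr 1
      change ∑ i, pderiv i (e i * u * f ^ s) - (∑ i, pderiv i (e i * u)) * f ^ s = _
      rw [Finset.sum_mul, ← Finset.sum_sub_distrib, Finset.mul_sum]
      refine Finset.sum_congr rfl fun i _ => ?_
      rw [pderiv_mul]
      ring
    | add p q hp hq =>
      rw [mapC_add, Lam_add, Lam_add, ← hp, ← hq]
      have : ∀ i, Lam (X i * (C (e i) * (p + q))) (f ^ s) =
          Lam (X i * (C (e i) * p)) (f ^ s) + Lam (X i * (C (e i) * q)) (f ^ s) := by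
        intro i
        rw [← Lam_add]
        congr 1
        ring
      rw [Finset.sum_congr rfl fun i _ => this i, Finset.sum_add_distrib]
      ring
  rw [key, hpow, ← smul_eq_C_mul, Lam_right_smul, smul_smul]
  congr 1
  field_simp

/-- the constant term of the operator -/
noncomputable def cst (Φ : MvPolynomial σ (MvPolynomial σ ℂ)) : ℂ := constantCoeff (coeff 0 Φ)

theorem cst_Sop (e : σ → MvPolynomial σ ℂ) (N : ℂ) (he0 : ∀ i, constantCoeff (e i) = 0)
    (Φ : MvPolynomial σ (MvPolynomial σ ℂ)) :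
    cst (Sop e N Φ) = - constantCoeff (dv e) / N * cst Φ := by
  unfold cst Sop
  rw [coeff_C_mul, map_mul, constantCoeff_C, coeff_sub, map_sub, coeff_mapC, coeff_sum]
  have h1 : ∀ i, coeff 0 (X i * (C (e i) * Φ)) = 0 := by
    intro i
    rw [mul_comm (X i)]
    rw [coeff_mul_X', if_neg (by simp)]
  rw [Finset.sum_eq_zero fun i _ => h1 i, map_zero, zero_sub]
  change N⁻¹ * -(constantCoeff (∑ i, pderiv i (e i * coeff 0 Φ))) = _
  have h2 : ∀ i, constantCoeff (pderiv i (e i * coeff 0 Φ)) =
      constantCoeff (pderiv i (e i)) * constantCoeff (coeff 0 Φ) := by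
    intro i
    rw [pderiv_mul, map_add, map_mul, map_mul, he0, zero_mul, add_zero]
  rw [map_sum, Finset.sum_congr rfl fun i _ => h2 i, ← Finset.sum_mul]
  unfold dv
  rw [map_sum]
  ring

theorem cst_add (Φ Ψ : MvPolynomial σ (MvPolynomial σ ℂ)) : cst (Φ + Ψ) = cst Φ + cst Ψ := by
  unfold cst
  rw [coeff_add, map_add]

theorem cst_smul (a : ℂ) (Φ : MvPolynomial σ (MvPolynomial σ ℂ)) :
    cst (C (C a) * Φ) = a * cst Φ := by
  unfold cst
  rw [coeff_C_mul, map_mul, constantCoeff_C]

theorem Lam_Sop_iter (e : σ → MvPolynomial σ ℂ) (N : ℂ) (hN : N ≠ 0) (f : MvPolynomial σ ℂ)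
    (he : ∑ i, e i * pderiv i f = C N * f) (Φ : MvPolynomial σ (MvPolynomial σ ℂ)) (s m : ℕ) :
    Lam ((Sop e N)^[m] Φ) (f ^ s) = ((s : ℂ) ^ m) • Lam Φ (f ^ s) := by
  induction m with
  | zero => simp
  | succ m ih =>
    rw [Function.iterate_succ_apply', Lam_Sop e N hN f he, ih, smul_smul, pow_succ, mul_comm]

theorem cst_Sop_iter (e : σ → MvPolynomial σ ℂ) (N : ℂ) (he0 : ∀ i, constantCoeff (e i) = 0)
    (Φ : MvPolynomial σ (MvPolynomial σ ℂ)) (m : ℕ) :
    cst ((Sop e N)^[m] Φ) = (- constantCoeff (dv e) / N) ^ m * cst Φ := by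
  induction m with
  | zero => simp
  | succ m ih =>
    rw [Function.iterate_succ_apply', cst_Sop e N he0, ih, pow_succ]
    ring

/-- **The root `-τ / N`, or a vector field which kills `f` and has a non-zero divergence at `0`.** -/
theorem root_or_field (f : MvPolynomial σ ℂ) (hf : f ≠ 0) (hf0 : constantCoeff f = 0)
    (hL : LTy fun i => pderiv i f) (e : σ → MvPolynomial σ ℂ) (N : ℂ) (hN : N ≠ 0)
    (he : ∑ i, e i * pderiv i f = C N * f) (he0 : ∀ i, constantCoeff (e i) = 0)
    (H : MvPolynomial σ ℂ) (hH : constantCoeff H ≠ 0) (b : Polynomial ℂ)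
    (P : ℕ →₀ weylS σ) (hP : ∀ s : ℕ, H * (C (b.eval (s : ℂ)) * f ^ s) =
      P.sum fun m Q => ((s : ℂ) ^ m) • (Q : Module.End ℂ (MvPolynomial σ ℂ)) (f ^ (s + 1))) :
    b.eval (- constantCoeff (dv e) / N) = 0 ∨
      ∃ η : σ → MvPolynomial σ ℂ, ∑ i, η i * pderiv i f = 0 ∧ constantCoeff (dv η) ≠ 0 := by
  classical
  rw [or_iff_not_imp_left]
  intro hb
  -- the left side
  have hleft : ∃ Ψ : MvPolynomial σ (MvPolynomial σ ℂ),
      (∀ s : ℕ, Lam Ψ (f ^ s) = H * (C (b.eval (s : ℂ)) * f ^ s)) ∧
      cst Ψ = b.eval (- constantCoeff (dv e) / N) * constantCoeff H := by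
    refine ⟨∑ m ∈ Finset.range (b.natDegree + 1), C (C (b.coeff m)) * (Sop e N)^[m] (C H), ?_, ?_⟩
    · intro s
      rw [Lam_sum]
      have h1 : ∀ m, Lam (C (C (b.coeff m)) * (Sop e N)^[m] (C H)) (f ^ s) =
          C (b.coeff m * (s : ℂ) ^ m) * (H * f ^ s) := by
        intro m
        rw [Lam_smul, Lam_Sop_iter e N hN f he, ← monomial_zero', Lam_monomial, D_zero, smul_smul,
          smul_eq_C_mul]
      rw [Finset.sum_congr rfl fun m _ => h1 m, ← Finset.sum_mul, ← map_sum,
        ← Polynomial.eval_eq_sum_range]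
      ring
    · have h0 : cst (C H : MvPolynomial σ (MvPolynomial σ ℂ)) = constantCoeff H := by
        unfold cst
        rw [coeff_zero_C]
      have hsum : ∀ (s : Finset ℕ) (g : ℕ → MvPolynomial σ (MvPolynomial σ ℂ)),
          cst (∑ m ∈ s, g m) = ∑ m ∈ s, cst (g m) := by
        intro s g
        unfold cst
        rw [coeff_sum, map_sum]
      rw [hsum, Polynomial.eval_eq_sum_range, Finset.sum_mul]
      refine Finset.sum_congr rfl fun m _ => ?_
      rw [cst_smul, cst_Sop_iter e N he0, h0]
      ring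
  have hright : ∀ P : ℕ →₀ weylS σ, ∃ Ψ : MvPolynomial σ (MvPolynomial σ ℂ),
      (∀ s : ℕ, Lam Ψ (f ^ s) = P.sum fun m Q => ((s : ℂ) ^ m) •
        (Q : Module.End ℂ (MvPolynomial σ ℂ)) (f ^ (s + 1))) ∧ cst Ψ = 0 := by
    intro P
    induction P using Finsupp.induction_linear with
    | zero =>
      refine ⟨0, fun s => ?_, ?_⟩
      · rw [Lam_zero, Finsupp.sum_zero_index]
      · unfold cst
        simp
    | add P Q hP hQ =>
      obtain ⟨Ψ1, h1, h2⟩ := hP
      obtain ⟨Ψ2, h3, h4⟩ := hQ
      refine ⟨Ψ1 + Ψ2, fun s => ?_, ?_⟩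
      · rw [Lam_add, h1, h3, Finsupp.sum_add_index' (fun m => by simp) (fun m Q Q' => by
          rw [← smul_add]; rfl)]
      · rw [cst_add, h2, h4, add_zero]
    | single m Q =>
      obtain ⟨Ψ, hΨ⟩ := exists_Lam (Q : Module.End ℂ (MvPolynomial σ ℂ)) Q.2 (C 1)
      refine ⟨(Sop e N)^[m] (C f * Ψ), fun s => ?_, ?_⟩
      · rw [Finsupp.sum_single_index (by simp), Lam_Sop_iter e N hN f he, Lam_C_mul, ← pow_succ',
          ← hΨ]
        rw [← monomial_zero', Lam_monomial, D_zero, one_mul]
      · rw [cst_Sop_iter e N he0]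
        unfold cst
        rw [coeff_C_mul, map_mul, hf0, zero_mul, mul_zero]
  obtain ⟨Ψ1, h1, h2⟩ := hleft
  obtain ⟨Ψ2, h3, h4⟩ := hright P
  obtain ⟨η, h5, h6⟩ := exists_field f hf hL _ (Ψ1 - Ψ2) le_rfl (fun s => by
    rw [Lam_sub, h1, h3, hP, sub_self])
  refine ⟨η, h5, fun h7 => ?_⟩
  have h8 := congrArg constantCoeff h6
  rw [map_add, h7, map_zero, coeff_sub, map_sub, add_zero] at h8
  change cst Ψ1 - cst Ψ2 = 0 at h8
  rw [h2, h4, sub_zero] at h8
  exact (mul_ne_zero hb hH) h8

end euler

end Pool.Agent.H940.LT
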