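import Pool.Agent.H940.LT.Root

set_option autoImplicit false
set_option linter.unusedSectionVars false

/-! # Families of linear type -/

namespace Pool.Agent.H940.LT

open MvPolynomial

section gen

variable {σ : Type} [Fintype σ] {R : Type} [CommRing R]

theorem eval_linF (g η : σ → R) : eval g (linF η) = ∑ i, η i * g i := by
  unfold linF
  rw [map_sum]
  refine Finset.sum_congr rfl fun i _ => ?_
  rw [map_mul, eval_C, eval_X]

/-- the coefficients of the syzygies are in the ideal -/
def KW (g : σ → R) : Prop :=
  ∀ η : σ → R, ∑ i, η i * g i = 0 → ∀ i, η i ∈ Ideal.span (Set.range g)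

/-- quasi-regularity -/
def QR (g : σ → R) : Prop :=
  ∀ (m : ℕ) (Q : MvPolynomial σ R), Q.IsHomogeneous m →
    eval g Q ∈ Ideal.span (Set.range g) ^ (m + 1) → ∀ γ, coeff γ Q ∈ Ideal.span (Set.range g)

theorem qr_of (g : σ → R) (hL : LTy g) (hK : KW g) : QR g := by
  intro m Q hQ h
  set I := Ideal.span (Set.range g) with hI
  have h1 : ∃ P : MvPolynomial σ R, P.IsHomogeneous m ∧ P ∈ I.map C ∧ eval g P = eval g Q := by
    rw [pow_succ'] at h
    refine Submodule.mul_induction_on h ?_ ?_
    · intro a ha b hb
      obtain ⟨p, hp, hpb⟩ := (Ideal.mem_span_pow_iff_exists_isHomogeneous g b).1 hb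
      refine ⟨C a * p, ?_, ?_, ?_⟩
      · have := (isHomogeneous_C σ a).mul hp
        rwa [zero_add] at this
      · exact Ideal.mul_mem_right _ _ (Ideal.mem_map_of_mem _ ha)
      · rw [map_mul, eval_C, hpb]
    · rintro x y ⟨p, hp1, hp2, hp3⟩ ⟨q, hq1, hq2, hq3⟩
      exact ⟨p + q, hp1.add hq1, Ideal.add_mem _ hp2 hq2, by rw [map_add, hp3, hq3]⟩
  obtain ⟨P, hP1, hP2, hP3⟩ := h1
  have h2 : Q - P ∈ LinI g := hL m _ (hQ.sub hP1) (by rw [map_sub, hP3, sub_self])
  have h3 : LinI g ≤ I.map C := by
    unfold LinI
    rw [Ideal.span_le]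
    rintro L ⟨η, hη, rfl⟩
    unfold linF
    exact Ideal.sum_mem _ fun i _ => Ideal.mul_mem_right _ _ (Ideal.mem_map_of_mem _ (hK η hη i))
  have h4 : Q ∈ I.map C := by
    have := Ideal.add_mem _ (h3 h2) hP2
    rwa [sub_add_cancel] at this
  exact mem_map_C_iff.1 h4

end gen

section fin

variable {R : Type} [CommRing R] {r : ℕ}

theorem linF_cons (c : R) (η : Fin r → R) :
    linF (Fin.cons c η : Fin (r + 1) → R) = C c * X 0 + rename Fin.succ (linF η) := by
  unfold linF
  rw [Fin.sum_univ_succ, map_sum]
  congr 1
  refine Finset.sum_congr rfl fun i _ => ?_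
  rw [Fin.cons_succ, map_mul, rename_C, rename_X]

theorem rename_mem (g : R) (g' : Fin r → R) (P : MvPolynomial (Fin r) R) (hP : P ∈ LinI g') :
    rename Fin.succ P ∈ LinI (Fin.cons g g' : Fin (r + 1) → R) := by
  have h1 : LinI g' ≤ (LinI (Fin.cons g g' : Fin (r + 1) → R)).comap
      (rename Fin.succ : MvPolynomial (Fin r) R →ₐ[R] MvPolynomial (Fin (r + 1)) R) := by
    unfold LinI
    rw [Ideal.span_le]
    rintro L ⟨η, hη, rfl⟩
    rw [SetLike.mem_coe, Ideal.mem_comap]
    refine Ideal.subset_span ⟨Fin.cons 0 η, ?_, ?_⟩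
    · rw [Fin.sum_univ_succ]
      simp only [Fin.cons_zero, Fin.cons_succ, zero_mul, zero_add]
      exact hη
    · rw [linF_cons, map_zero, zero_mul, zero_add]
  exact h1 hP

theorem eval_mem_pow (g' : Fin r → R) (P : MvPolynomial (Fin r) R) (m : ℕ)
    (hP : P.IsHomogeneous m) : eval g' P ∈ Ideal.span (Set.range g') ^ m :=
  (Ideal.mem_span_pow_iff_exists_isHomogeneous g' _).2 ⟨P, hP, rfl⟩

theorem fse_C (a : R) : finSuccEquiv R r (C a) = Polynomial.C (C a) := by
  rw [finSuccEquiv_apply, eval₂Hom_C]
  rfl

theorem fse_rename (Q : MvPolynomial (Fin r) R) : finSuccEquiv R r (rename Fin.succ Q) =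
    Polynomial.C Q := by
  induction Q using MvPolynomial.induction_on with
  | C a => rw [rename_C, fse_C]
  | add p q hp hq => rw [map_add, map_add, map_add, hp, hq]
  | mul_X p i hp => rw [map_mul, map_mul, hp, rename_X, finSuccEquiv_X_succ, map_mul]

/-- **The extension lemma.** -/
theorem lty_cons (g : R) (g' : Fin r → R) (hL : LTy g') (hQ : QR g')
    (hs : ∀ (c : R) (m : ℕ), c * g ^ (m + 1) ∈ Ideal.span (Set.range g') →
      c * g ∈ Ideal.span (Set.range g')) :
    LTy (Fin.cons g g' : Fin (r + 1) → R) := by
  classical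
  set G : Fin (r + 1) → R := Fin.cons g g' with hG
  set I := Ideal.span (Set.range g') with hI
  intro m
  have key : ∀ k : ℕ, ∀ Φ : MvPolynomial (Fin (r + 1)) R, Φ.IsHomogeneous m → eval G Φ = 0 →
      (finSuccEquiv R r Φ).natDegree ≤ k → Φ ∈ LinI G := by
    intro k
    induction k with
    | zero =>
      intro Φ hΦ h0 hk
      have h1 : finSuccEquiv R r Φ = Polynomial.C ((finSuccEquiv R r Φ).coeff 0) :=
        Polynomial.eq_C_of_natDegree_le_zero hk
      set P := (finSuccEquiv R r Φ).coeff 0 with hP
      have h2 : P.IsHomogeneous m := hΦ.finSuccEquiv_coeff_isHomogeneous 0 m (zero_add m)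
      have h3 : eval g' P = 0 := by
        rw [hG, eval_eq_eval_mv_eval', h1, Polynomial.map_C, Polynomial.eval_C] at h0
        exact h0
      have h4 : Φ = rename Fin.succ P := by
        apply (finSuccEquiv R r).injective
        rw [h1, fse_rename]
      rw [h4]
      exact rename_mem g g' P (hL m P h2 h3)
    | succ k ih =>
      intro Φ hΦ h0 hk
      set F := finSuccEquiv R r Φ with hF
      by_cases hkm : m < k + 1
      · refine ih Φ hΦ h0 ?_
        rw [← hF]
        refine Polynomial.natDegree_le_iff_coeff_eq_zero.2 fun j hj => ?_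
        ext γ
        rw [hF, finSuccEquiv_coeff_coeff, coeff_zero]
        refine hΦ.coeff_eq_zero ?_
        have h1 : (γ.cons j).degree = j + γ.degree := by
          rw [Finsupp.degree_eq_sum, Finsupp.degree_eq_sum, Fin.sum_univ_succ]
          simp only [Finsupp.cons_zero, Finsupp.cons_succ]
        omega
      · rw [not_lt] at hkm
        obtain ⟨t, ht⟩ := Nat.exists_eq_add_of_le hkm
        set P := F.coeff (k + 1) with hP
        have h2 : P.IsHomogeneous t := hΦ.finSuccEquiv_coeff_isHomogeneous (k + 1) t ht.symm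
        have h3 : ∑ j ∈ Finset.range (k + 2), eval g' (F.coeff j) * g ^ j = 0 := by
          rw [← h0, hG, eval_eq_eval_mv_eval', Polynomial.eval_eq_sum_range'
            (n := k + 2) (lt_of_le_of_lt (Polynomial.natDegree_map_le) (by rw [← hF]; omega))]
          refine Finset.sum_congr rfl fun j _ => ?_
          rw [Polynomial.coeff_map]
        rw [Finset.sum_range_succ] at h3
        have h4 : eval g' (C (g ^ (k + 1)) * P) ∈ I ^ (t + 1) := by
          have h5 : eval g' (C (g ^ (k + 1)) * P) =
              -∑ j ∈ Finset.range (k + 1), eval g' (F.coeff j) * g ^ j := by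
            rw [map_mul, eval_C, hP]
            linear_combination h3
          rw [h5]
          refine neg_mem (Ideal.sum_mem _ fun j hj => Ideal.mul_mem_right _ _ ?_)
          rw [Finset.mem_range] at hj
          refine Ideal.pow_le_pow_right (m := t + 1) (n := m - j) (by omega) ?_
          exact eval_mem_pow g' _ _ (hΦ.finSuccEquiv_coeff_isHomogeneous j (m - j) (by omega))
        have h5 := hQ t (C (g ^ (k + 1)) * P) (by
          have := (isHomogeneous_C (Fin r) (g ^ (k + 1))).mul h2
          rwa [zero_add] at this) h4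
        have h6 : ∀ γ, coeff γ P * g ∈ I := by
          intro γ
          refine hs _ k ?_
          have := h5 γ
          rwa [coeff_C_mul, mul_comm] at this
        choose a ha using fun γ => (Ideal.mem_span_range_iff_exists_fun (R := R) (v := g')).1 (h6 γ)
        set Ψ : MvPolynomial (Fin (r + 1)) R := ∑ γ ∈ P.support,
          X 0 ^ k * rename Fin.succ (monomial γ 1) *
            linF (Fin.cons (coeff γ P) (fun i => -a γ i) : Fin (r + 1) → R) with hΨ
        have hΨL : Ψ ∈ LinI G := by
          refine Ideal.sum_mem _ fun γ _ => Ideal.mul_mem_left _ _ (Ideal.subset_span ⟨_, ?_, rfl⟩)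
          rw [Fin.sum_univ_succ]
          simp only [Fin.cons_zero, Fin.cons_succ, hG]
          simp only [neg_mul, Finset.sum_neg_distrib]
          rw [ha γ, add_neg_cancel]
        have hΨh : Ψ.IsHomogeneous m := by
          refine IsHomogeneous.sum _ _ _ fun γ hγ => ?_
          have h7 : γ.degree = t := by
            by_contra h8
            exact (mem_support_iff.1 hγ) (h2.coeff_eq_zero h8)
          have h8 : (rename Fin.succ (monomial γ (1 : R)) :
              MvPolynomial (Fin (r + 1)) R).IsHomogeneous t :=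
            (isHomogeneous_monomial (1 : R) h7).rename_isHomogeneous
          have h9 := ((isHomogeneous_X_pow (R := R) (0 : Fin (r + 1)) k).mul h8).mul (linF_hom
            (Fin.cons (coeff γ P) (fun i => -a γ i) : Fin (r + 1) → R))
          have h10 : k + t + 1 = m := by omega
          rwa [h10] at h9
        have hΨ0 : eval G Ψ = 0 := by
          rw [hΨ, map_sum]
          refine Finset.sum_eq_zero fun γ _ => ?_
          rw [map_mul, eval_linF, Fin.sum_univ_succ]
          simp only [Fin.cons_zero, Fin.cons_succ, hG]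
          simp only [neg_mul, Finset.sum_neg_distrib]
          rw [ha γ, add_neg_cancel, mul_zero]
        have hdeg : (finSuccEquiv R r (Φ - Ψ)).natDegree ≤ k := by
          have h7 : ∀ γ, finSuccEquiv R r (X 0 ^ k * rename Fin.succ (monomial γ 1) *
              linF (Fin.cons (coeff γ P) (fun i => -a γ i) : Fin (r + 1) → R)) =
              Polynomial.monomial (k + 1) (monomial γ (coeff γ P)) +
              Polynomial.monomial k (monomial γ 1 * linF fun i => -a γ i) := by
            intro γ
            rw [linF_cons, map_mul, map_mul, map_add, map_mul, map_pow, fse_rename, fse_rename,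
              finSuccEquiv_X_zero, fse_C, ← Polynomial.C_mul_X_pow_eq_monomial,
              ← Polynomial.C_mul_X_pow_eq_monomial]
            have h8 : (monomial γ (coeff γ P) : MvPolynomial (Fin r) R) =
                C (coeff γ P) * monomial γ 1 := by
              rw [C_mul_monomial, mul_one]
            rw [h8]
            simp only [map_mul]
            ring
          rw [map_sub, hΨ, map_sum, Finset.sum_congr rfl fun γ _ => h7 γ, Finset.sum_add_distrib,
            ← map_sum, ← map_sum, support_sum_monomial_coeff]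
          refine Polynomial.natDegree_le_iff_coeff_eq_zero.2 fun j hj => ?_
          rw [Polynomial.coeff_sub, Polynomial.coeff_add, Polynomial.coeff_monomial,
            Polynomial.coeff_monomial, if_neg (show ¬ k = j by omega), add_zero]
          by_cases hj2 : k + 1 = j
          · rw [if_pos hj2, ← hj2, ← hF, ← hP, sub_self]
          · rw [if_neg hj2, sub_zero, ← hF]
            exact Polynomial.coeff_eq_zero_of_natDegree_lt (by omega)
        have h7 := ih (Φ - Ψ) (hΦ.sub hΨh) (by rw [map_sub, h0, hΨ0, sub_self]) hdeg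
        have h8 := Ideal.add_mem _ h7 hΨL
        rwa [sub_add_cancel] at h8
  intro Φ hΦ h0
  exact key _ Φ hΦ h0 le_rfl

/-- the syzygies are the Koszul ones -/
def KOS (g : Fin r → R) : Prop :=
  ∀ η : Fin r → R, ∑ i, η i * g i = 0 → ∃ a : Fin r → Fin r → R,
    (∀ i, a i i = 0) ∧ (∀ i j, a i j = - a j i) ∧ ∀ i, η i = ∑ j, a i j * g j

theorem KOS.kw {g : Fin r → R} (h : KOS g) : KW g := by
  intro η hη i
  obtain ⟨a, _, _, h3⟩ := h η hη
  rw [h3]
  exact Ideal.sum_mem _ fun j _ => Ideal.mul_mem_left _ _ (Ideal.subset_span ⟨j, rfl⟩)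

theorem kos_cons (g : R) (g' : Fin r → R) (hK : KOS g')
    (hs : ∀ c : R, g * c ∈ Ideal.span (Set.range g') → c ∈ Ideal.span (Set.range g')) :
    KOS (Fin.cons g g' : Fin (r + 1) → R) := by
  intro η hη
  rw [Fin.sum_univ_succ] at hη
  simp only [Fin.cons_zero, Fin.cons_succ] at hη
  have h1 : η 0 ∈ Ideal.span (Set.range g') := by
    refine hs _ ?_
    have : g * η 0 = -∑ i : Fin r, η i.succ * g' i := by linear_combination hη
    rw [this]
    exact neg_mem (Ideal.sum_mem _ fun j _ => Ideal.mul_mem_left _ _ (Ideal.subset_span ⟨j, rfl⟩))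
  obtain ⟨a, ha⟩ := (Ideal.mem_span_range_iff_exists_fun (R := R) (v := g')).1 h1
  obtain ⟨A, hA1, hA2, hA3⟩ := hK (fun i => η i.succ + a i * g) (by
    rw [← hη, ← ha, Finset.sum_mul, ← Finset.sum_add_distrib]
    refine Finset.sum_congr rfl fun i _ => ?_
    ring)
  refine ⟨Fin.cons (Fin.cons 0 a) fun i => Fin.cons (-a i) (A i), ?_, ?_, ?_⟩
  · intro i
    induction i using Fin.cases with
    | zero => simp
    | succ i => simp [hA1]
  · intro i j
    induction i using Fin.cases with
    | zero =>
      induction j using Fin.cases with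
      | zero => simp
      | succ j => simp
    | succ i =>
      induction j using Fin.cases with
      | zero => simp
      | succ j =>
        simp only [Fin.cons_succ]
        exact hA2 i j
  · intro i
    rw [Fin.sum_univ_succ]
    induction i using Fin.cases with
    | zero =>
      simp only [Fin.cons_zero, Fin.cons_succ]
      rw [ha]
      ring
    | succ i =>
      simp only [Fin.cons_zero, Fin.cons_succ]
      rw [← hA3]
      ring

theorem lty_empty (g : Fin 0 → R) : LTy g := by
  intro m Φ _ h0
  have h1 : Φ = C (coeff 0 Φ) := by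
    ext γ
    rw [Subsingleton.elim γ 0, coeff_zero_C]
  rw [h1, eval_C] at h0
  rw [h1, h0, map_zero]
  exact Ideal.zero_mem _

theorem kos_empty (g : Fin 0 → R) : KOS g := by
  intro η _
  exact ⟨fun i => i.elim0, fun i => i.elim0, fun i => i.elim0, fun i => i.elim0⟩

/-- `g (r - 1), …, g 0` is a regular sequence -/
def RegF : ∀ {r : ℕ}, (Fin r → R) → Prop
  | 0, _ => True
  | _ + 1, g => RegF (Fin.tail g) ∧ ∀ c : R, g 0 * c ∈ Ideal.span (Set.range (Fin.tail g)) →
      c ∈ Ideal.span (Set.range (Fin.tail g))

theorem RegF.kos {r : ℕ} {g : Fin r → R} (h : RegF g) : KOS g := by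
  induction r with
  | zero => exact kos_empty g
  | succ r ih =>
    rw [← Fin.cons_self_tail g]
    exact kos_cons _ _ (ih h.1) h.2

theorem RegF.lty {r : ℕ} {g : Fin r → R} (h : RegF g) : LTy g := by
  induction r with
  | zero => exact lty_empty g
  | succ r ih =>
    rw [← Fin.cons_self_tail g]
    refine lty_cons _ _ (ih h.1) (qr_of _ (ih h.1) h.1.kos.kw) fun c m hc => ?_
    have h1 : ∀ k, c * g 0 ^ k ∈ Ideal.span (Set.range (Fin.tail g)) →
        c ∈ Ideal.span (Set.range (Fin.tail g)) := by
      intro k
      induction k with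
      | zero =>
        intro h1
        rwa [pow_zero, mul_one] at h1
      | succ k ih =>
        intro h1
        refine ih (h.2 _ ?_)
        have : g 0 * (c * g 0 ^ k) = c * g 0 ^ (k + 1) := by ring
        rwa [this]
    exact Ideal.mul_mem_right _ _ (h1 _ hc)

end fin

section matrix

variable {σ : Type} [Fintype σ] {R : Type} [CommRing R]

/-- the property does not depend on the generators -/
theorem LTy.matrix [DecidableEq σ] {g g2 : σ → R} (h : LTy g) (A B : σ → σ → R)
    (hA : ∀ i, g2 i = ∑ j, A i j * g j) (hB : ∀ i, g i = ∑ j, B i j * g2 j)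
    (hAB : ∀ i k, ∑ j, A i j * B j k = if i = k then 1 else 0) : LTy g2 := by
  intro m Φ hΦ h0
  set φA : MvPolynomial σ R →ₐ[R] MvPolynomial σ R := aeval fun i => linF (A i) with hφA
  set φB : MvPolynomial σ R →ₐ[R] MvPolynomial σ R := aeval fun i => linF (B i) with hφB
  have h1 : φB.comp φA = AlgHom.id R _ := by
    apply algHom_ext
    intro i
    rw [AlgHom.comp_apply, hφA, aeval_X, AlgHom.id_apply]
    unfold linF
    rw [map_sum]
    have h2 : ∀ j, φB (C (A i j) * X j) = ∑ k, C (A i j * B j k) * X k := by
      intro j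
      rw [map_mul, hφB, aeval_X, algHom_C]
      unfold linF
      rw [Finset.mul_sum]
      refine Finset.sum_congr rfl fun k _ => ?_
      rw [map_mul, algebraMap_eq]
      ring
    rw [Finset.sum_congr rfl fun j _ => h2 j, Finset.sum_comm]
    have h3 : ∀ k, ∑ j, C (A i j * B j k) * X k = if i = k then (X k : MvPolynomial σ R) else 0 := by
      intro k
      rw [← Finset.sum_mul, ← map_sum, hAB]
      split_ifs
      · rw [map_one, one_mul]
      · rw [map_zero, zero_mul]
    rw [Finset.sum_congr rfl fun k _ => h3 k, Finset.sum_ite_eq, if_pos (Finset.mem_univ i)]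
  have h2 : (φA Φ).IsHomogeneous m := by
    have := hΦ.aeval (fun i => linF (A i)) fun i => linF_hom (A i)
    rwa [one_mul] at this
  have h3 : eval g (φA Φ) = 0 := by
    rw [← h0, hφA]
    have : (eval g).comp (aeval fun i => linF (A i) : MvPolynomial σ R →ₐ[R] _).toRingHom =
        eval g2 := by
      apply ringHom_ext
      · intro r
        simp
      · intro i
        simp only [AlgHom.toRingHom_eq_coe, RingHom.coe_comp, RingHom.coe_coe,
          Function.comp_apply, aeval_X, eval_X]
        rw [eval_linF, hA]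
    exact RingHom.congr_fun this Φ
  have h4 : φA Φ ∈ LinI g := h m _ h2 h3
  have h5 : LinI g ≤ (LinI g2).comap φB := by
    unfold LinI
    rw [Ideal.span_le]
    rintro L ⟨η, hη, rfl⟩
    rw [SetLike.mem_coe, Ideal.mem_comap]
    refine Ideal.subset_span ⟨fun k => ∑ j, η j * B j k, ?_, ?_⟩
    · rw [← hη]
      have : ∀ k, (∑ j, η j * B j k) * g2 k = ∑ j, η j * (B j k * g2 k) := by
        intro k
        rw [Finset.sum_mul]
        exact Finset.sum_congr rfl fun j _ => mul_assoc _ _ _
      rw [Finset.sum_congr rfl fun k _ => this k, Finset.sum_comm]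
      refine Finset.sum_congr rfl fun j _ => ?_
      rw [← Finset.mul_sum, ← hB]
    · unfold linF
      rw [map_sum]
      have : ∀ j, φB (C (η j) * X j) = ∑ k, C (η j * B j k) * X k := by
        intro j
        rw [map_mul, hφB, aeval_X, algHom_C]
        unfold linF
        rw [Finset.mul_sum]
        refine Finset.sum_congr rfl fun k _ => ?_
        rw [map_mul, algebraMap_eq]
        ring
      rw [Finset.sum_congr rfl fun j _ => this j, Finset.sum_comm]
      refine Finset.sum_congr rfl fun k _ => ?_
      rw [← Finset.sum_mul, ← map_sum]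
  have h6 := h5 h4
  rw [Ideal.mem_comap] at h6
  have h7 : φB (φA Φ) = Φ := by
    rw [← AlgHom.comp_apply, h1, AlgHom.id_apply]
  rwa [h7] at h6

end matrix

end Pool.Agent.H940.LT
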