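import Pool.Graph.R_pool_sql_team_seeded_3997aac3.Q57.MD.Cases

set_option autoImplicit false
set_option linter.unusedSectionVars false

/-! # Operators with the derivatives on the left -/

namespace Pool.Agent.H940.LT

open MvPolynomial
open Pool.Agent.H628R4.TP (weylS)

variable {σ : Type} [Fintype σ] [DecidableEq σ]

/-- the iterated derivative `∂ ^ β` -/
noncomputable def D (β : σ →₀ ℕ) : MvPolynomial σ ℂ →ₗ[ℂ] MvPolynomial σ ℂ :=
  (basisMonomials σ ℂ).constr ℂ fun α : σ →₀ ℕ =>
    monomial (α - β) ((∏ i, (α i).descFactorial (β i) : ℕ) : ℂ)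

theorem D_monomial (β α : σ →₀ ℕ) (a : ℂ) : D β (monomial α a) =
    monomial (α - β) (a * ((∏ i, (α i).descFactorial (β i) : ℕ) : ℂ)) := by
  have h1 : (monomial α a : MvPolynomial σ ℂ) = a • monomial α 1 := by
    rw [smul_monomial, smul_eq_mul, mul_one]
  have h2 : (monomial α 1 : MvPolynomial σ ℂ) = basisMonomials σ ℂ α := by
    rw [coe_basisMonomials]
  rw [h1, map_smul, h2]
  unfold D
  rw [Module.Basis.constr_basis, smul_monomial, smul_eq_mul]

theorem D_zero (F : MvPolynomial σ ℂ) : D 0 F = F := by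
  induction F using MvPolynomial.induction_on' with
  | monomial α a =>
    rw [D_monomial]
    simp
  | add p q hp hq => rw [map_add, hp, hq]

theorem D_succ (β : σ →₀ ℕ) (i : σ) (F : MvPolynomial σ ℂ) :
    D (β + Finsupp.single i 1) F = pderiv i (D β F) := by
  induction F using MvPolynomial.induction_on' with
  | monomial α a =>
    rw [D_monomial, D_monomial, pderiv_monomial]
    have h1 : α - (β + Finsupp.single i 1) = α - β - Finsupp.single i 1 := by
      ext j
      simp only [Finsupp.tsub_apply, Finsupp.add_apply]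
      omega
    have h2 : (∏ j, (α j).descFactorial ((β + Finsupp.single i 1 : σ →₀ ℕ) j)) =
        (∏ j, (α j).descFactorial (β j)) * (α - β) i := by
      rw [← Finset.mul_prod_erase Finset.univ (fun j => (α j).descFactorial
        ((β + Finsupp.single i 1 : σ →₀ ℕ) j)) (Finset.mem_univ i), ← Finset.mul_prod_erase Finset.univ
        (fun j => (α j).descFactorial (β j)) (Finset.mem_univ i)]
      have h3 : ∏ j ∈ Finset.univ.erase i, (α j).descFactorial
          ((β + Finsupp.single i 1 : σ →₀ ℕ) j) =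
          ∏ j ∈ Finset.univ.erase i, (α j).descFactorial (β j) := by
        refine Finset.prod_congr rfl fun j hj => ?_
        rw [Finsupp.add_apply, Finsupp.single_eq_of_ne (Finset.ne_of_mem_erase hj), add_zero]
      rw [h3, Finsupp.add_apply, Finsupp.single_eq_same, Nat.descFactorial_succ,
        Finsupp.tsub_apply]
      ring
    rw [h1, h2]
    push_cast
    congr 1
    ring
  | add p q hp hq => rw [map_add, map_add, map_add, hp, hq]

theorem pderiv_comm' (i j : σ) (F : MvPolynomial σ ℂ) :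
    pderiv i (pderiv j F) = pderiv j (pderiv i F) := by
  have h1 := D_succ (Finsupp.single j 1) i F
  have h2 := D_succ (Finsupp.single i 1) j F
  have h3 : ∀ k, D (Finsupp.single k 1) F = pderiv k F := by
    intro k
    have := D_succ 0 k F
    rwa [zero_add, D_zero] at this
  rw [h3] at h1 h2
  rw [← h1, ← h2, add_comm]

theorem D_pderiv (β : σ →₀ ℕ) (i : σ) (F : MvPolynomial σ ℂ) :
    D β (pderiv i F) = pderiv i (D β F) := by
  induction β using Finsupp.induction_linear generalizing F with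
  | zero => rw [D_zero, D_zero]
  | add β γ hβ hγ =>
    have key : ∀ (γ β : σ →₀ ℕ) (F : MvPolynomial σ ℂ), D (β + γ) F = D β (D γ F) := by
      intro γ β F
      have : ∀ n, ∀ β : σ →₀ ℕ, β.degree = n → D (β + γ) F = D β (D γ F) := by
        intro n
        induction n with
        | zero =>
          intro β hβ
          rw [Finsupp.degree_eq_zero_iff] at hβ
          rw [hβ, zero_add, D_zero]
        | succ n ih =>
          intro β hβ
          have hne : β ≠ 0 := by
            rintro rfl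
            simp at hβ
          obtain ⟨i, hi⟩ := Finsupp.ne_iff.1 hne
          have hb : β = (β - Finsupp.single i 1) + Finsupp.single i 1 := by
            rw [tsub_add_cancel_of_le]
            rw [Finsupp.single_le_iff]
            exact Nat.one_le_iff_ne_zero.2 hi
          have hdeg : (β - Finsupp.single i 1).degree = n := by
            have h1 := congrArg Finsupp.degree hb
            rw [map_add, Finsupp.degree_single, hβ] at h1
            omega
          rw [hb, add_right_comm, D_succ, D_succ, ih _ hdeg]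
      exact this _ β rfl
    rw [key, key, hγ, hβ]
  | single j n =>
    induction n with
    | zero => rw [Finsupp.single_zero, D_zero, D_zero]
    | succ n ih =>
      rw [Finsupp.single_add, D_succ, D_succ, ih, pderiv_comm']

/-- `∑_β ∂ ^ β (u_β g)` for `Φ = ∑_β u_β X ^ β` -/
noncomputable def Lam (Φ : MvPolynomial σ (MvPolynomial σ ℂ)) (g : MvPolynomial σ ℂ) :
    MvPolynomial σ ℂ :=
  ∑ β ∈ Φ.support, D β (coeff β Φ * g)

theorem Lam_eq (Φ : MvPolynomial σ (MvPolynomial σ ℂ)) (g : MvPolynomial σ ℂ)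
    (s : Finset (σ →₀ ℕ)) (hs : Φ.support ⊆ s) :
    Lam Φ g = ∑ β ∈ s, D β (coeff β Φ * g) := by
  unfold Lam
  refine Finset.sum_subset hs fun β _ hβ => ?_
  rw [notMem_support_iff.1 hβ, zero_mul, map_zero]

theorem Lam_add (Φ Ψ : MvPolynomial σ (MvPolynomial σ ℂ)) (g : MvPolynomial σ ℂ) :
    Lam (Φ + Ψ) g = Lam Φ g + Lam Ψ g := by
  rw [Lam_eq (Φ + Ψ) g (Φ.support ∪ Ψ.support) support_add,
    Lam_eq Φ g _ Finset.subset_union_left, Lam_eq Ψ g _ Finset.subset_union_right,
    ← Finset.sum_add_distrib]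
  refine Finset.sum_congr rfl fun β _ => ?_
  rw [coeff_add, add_mul, map_add]

theorem Lam_monomial (β : σ →₀ ℕ) (u g : MvPolynomial σ ℂ) :
    Lam (monomial β u) g = D β (u * g) := by
  rw [Lam_eq _ g {β} support_monomial_subset, Finset.sum_singleton, coeff_monomial, if_pos rfl]

theorem Lam_zero (g : MvPolynomial σ ℂ) : Lam 0 g = 0 := by
  unfold Lam
  rw [support_zero, Finset.sum_empty]

/-- `Φ ↦ Lam Φ g` as an additive map -/
noncomputable def LamHom (g : MvPolynomial σ ℂ) :
    MvPolynomial σ (MvPolynomial σ ℂ) →+ MvPolynomial σ ℂ where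
  toFun Φ := Lam Φ g
  map_zero' := Lam_zero g
  map_add' Φ Ψ := Lam_add Φ Ψ g

theorem LamHom_apply (g : MvPolynomial σ ℂ) (Φ : MvPolynomial σ (MvPolynomial σ ℂ)) :
    LamHom g Φ = Lam Φ g := rfl

theorem Lam_sum {ι : Type} (s : Finset ι) (Φ : ι → MvPolynomial σ (MvPolynomial σ ℂ))
    (g : MvPolynomial σ ℂ) : Lam (∑ i ∈ s, Φ i) g = ∑ i ∈ s, Lam (Φ i) g := by
  simp only [← LamHom_apply]
  rw [map_sum]

theorem Lam_sub (Φ Ψ : MvPolynomial σ (MvPolynomial σ ℂ)) (g : MvPolynomial σ ℂ) :
    Lam (Φ - Ψ) g = Lam Φ g - Lam Ψ g := by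
  simp only [← LamHom_apply]
  rw [map_sub]

theorem Lam_smul (a : ℂ) (Φ : MvPolynomial σ (MvPolynomial σ ℂ)) (g : MvPolynomial σ ℂ) :
    Lam (C (C a) * Φ) g = a • Lam Φ g := by
  induction Φ using MvPolynomial.induction_on' with
  | monomial β u =>
    rw [C_mul_monomial, Lam_monomial, Lam_monomial, mul_assoc, C_mul', map_smul]
  | add p q hp hq => rw [mul_add, Lam_add, Lam_add, hp, hq, smul_add]

/-- application of an additive map to the coefficients -/
noncomputable def mapC (δ : MvPolynomial σ ℂ →+ MvPolynomial σ ℂ)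
    (Φ : MvPolynomial σ (MvPolynomial σ ℂ)) : MvPolynomial σ (MvPolynomial σ ℂ) :=
  ∑ β ∈ Φ.support, monomial β (δ (coeff β Φ))

theorem mapC_eq (δ : MvPolynomial σ ℂ →+ MvPolynomial σ ℂ)
    (Φ : MvPolynomial σ (MvPolynomial σ ℂ))
    (s : Finset (σ →₀ ℕ)) (hs : Φ.support ⊆ s) :
    mapC δ Φ = ∑ β ∈ s, monomial β (δ (coeff β Φ)) := by
  unfold mapC
  refine Finset.sum_subset hs fun β _ hβ => ?_
  rw [notMem_support_iff.1 hβ, map_zero, map_zero]

theorem mapC_add (δ : MvPolynomial σ ℂ →+ MvPolynomial σ ℂ)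
    (Φ Ψ : MvPolynomial σ (MvPolynomial σ ℂ)) : mapC δ (Φ + Ψ) = mapC δ Φ + mapC δ Ψ := by
  rw [mapC_eq δ (Φ + Ψ) (Φ.support ∪ Ψ.support) support_add,
    mapC_eq δ Φ _ Finset.subset_union_left, mapC_eq δ Ψ _ Finset.subset_union_right,
    ← Finset.sum_add_distrib]
  refine Finset.sum_congr rfl fun β _ => ?_
  rw [coeff_add, map_add, map_add]

theorem mapC_monomial (δ : MvPolynomial σ ℂ →+ MvPolynomial σ ℂ) (β : σ →₀ ℕ)
    (u : MvPolynomial σ ℂ) : mapC δ (monomial β u) = monomial β (δ u) := by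
  rw [mapC_eq δ _ {β} support_monomial_subset, Finset.sum_singleton, coeff_monomial, if_pos rfl]

theorem coeff_mapC (δ : MvPolynomial σ ℂ →+ MvPolynomial σ ℂ)
    (Φ : MvPolynomial σ (MvPolynomial σ ℂ)) (β : σ →₀ ℕ) :
    coeff β (mapC δ Φ) = δ (coeff β Φ) := by
  induction Φ using MvPolynomial.induction_on' with
  | monomial γ u =>
    rw [mapC_monomial, coeff_monomial, coeff_monomial]
    split_ifs
    · rfl
    · rw [map_zero]
  | add p q hp hq => rw [mapC_add, coeff_add, coeff_add, hp, hq, map_add]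

theorem Lam_X_mul (i : σ) (Φ : MvPolynomial σ (MvPolynomial σ ℂ)) (g : MvPolynomial σ ℂ) :
    Lam (X i * Φ) g = pderiv i (Lam Φ g) := by
  induction Φ using MvPolynomial.induction_on' with
  | monomial β u =>
    rw [X, monomial_mul, one_mul, Lam_monomial, Lam_monomial, add_comm, D_succ]
  | add p q hp hq => rw [mul_add, Lam_add, Lam_add, hp, hq, map_add]

theorem Lam_C_mul (a : MvPolynomial σ ℂ) (Φ : MvPolynomial σ (MvPolynomial σ ℂ))
    (g : MvPolynomial σ ℂ) : Lam (C a * Φ) g = Lam Φ (a * g) := by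
  induction Φ using MvPolynomial.induction_on' with
  | monomial β u =>
    rw [C_mul_monomial, Lam_monomial, Lam_monomial]
    congr 1
    ring
  | add p q hp hq => rw [mul_add, Lam_add, Lam_add, hp, hq]

/-- composition with a derivative on the right -/
theorem Lam_pderiv (i : σ) (Φ : MvPolynomial σ (MvPolynomial σ ℂ)) (g : MvPolynomial σ ℂ) :
    Lam Φ (pderiv i g) = Lam (X i * Φ - mapC (pderiv i : Derivation ℂ (MvPolynomial σ ℂ)
      (MvPolynomial σ ℂ)).toLinearMap.toAddMonoidHom Φ) g := by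
  induction Φ using MvPolynomial.induction_on' with
  | monomial β u =>
    rw [Lam_sub, Lam_X_mul, mapC_monomial, Lam_monomial, Lam_monomial, Lam_monomial]
    have h1 : u * pderiv i g = pderiv i (u * g) - (pderiv i u) * g := by
      rw [pderiv_mul]
      ring
    rw [h1, map_sub, D_pderiv]
    rfl
  | add p q hp hq =>
    rw [Lam_add, hp, hq, mul_add, mapC_add, ← Lam_add]
    congr 1
    ring

/-- **Every operator of the Weyl algebra has the derivatives on the left.** -/
theorem exists_Lam (Q : Module.End ℂ (MvPolynomial σ ℂ)) (hQ : Q ∈ weylS σ) :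
    ∀ Φ : MvPolynomial σ (MvPolynomial σ ℂ), ∃ Ψ : MvPolynomial σ (MvPolynomial σ ℂ),
      ∀ g, Lam Φ (Q g) = Lam Ψ g := by
  unfold weylS at hQ
  induction hQ using Algebra.adjoin_induction with
  | mem Q h =>
    intro Φ
    rcases h with ⟨i, rfl⟩ | ⟨i, rfl⟩
    · refine ⟨C (X i) * Φ, fun g => ?_⟩
      rw [Lam_C_mul]
      rfl
    · exact ⟨_, fun g => Lam_pderiv i Φ g⟩
  | algebraMap r =>
    intro Φ
    refine ⟨C (C r) * Φ, fun g => ?_⟩
    rw [Lam_C_mul]
    congr 1
    rw [C_mul']
    rfl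
  | add P Q _ _ hP hQ =>
    intro Φ
    obtain ⟨Ψ, h1⟩ := hP Φ
    obtain ⟨Ψ', h2⟩ := hQ Φ
    refine ⟨Ψ + Ψ', fun g => ?_⟩
    rw [Lam_add, ← h1, ← h2]
    have h3 : ∀ (a b : MvPolynomial σ ℂ), Lam Φ (a + b) = Lam Φ a + Lam Φ b := by
      intro a b
      unfold Lam
      rw [← Finset.sum_add_distrib]
      refine Finset.sum_congr rfl fun β _ => ?_
      rw [mul_add, map_add]
    rw [← h3]
    rfl
  | mul P Q _ _ hP hQ =>
    intro Φ
    obtain ⟨Ψ, h1⟩ := hP Φ
    obtain ⟨Ψ', h2⟩ := hQ Ψ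
    refine ⟨Ψ', fun g => ?_⟩
    rw [← h2, ← h1]
    rfl

end Pool.Agent.H940.LT
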