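import Pool.Agent.H940.LT.Lin
import Pool.Graph.R_seed8.TH144.MB.Reg

set_option autoImplicit false
set_option linter.unusedSectionVars false

/-! # Regular sequences of partial derivatives -/

namespace Pool.Agent.H940.LT

open MvPolynomial
open Pool.Agent.TH144.MB (Reg ext NZ lin Hom)

section list

variable {σ : Type} {K : Type} [Field K]

theorem ext_eq (L : List (MvPolynomial σ K)) (I : Ideal (MvPolynomial σ K)) :
    ext I L = I ⊔ Ideal.span {x | x ∈ L} := by
  induction L generalizing I with
  | nil => simp [Pool.Agent.TH144.MB.ext]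
  | cons f L ih =>
    rw [Pool.Agent.TH144.MB.ext_cons, ih]
    have : {x | x ∈ f :: L} = {x | x ∈ L} ∪ {f} := by
      ext x
      simp
    rw [this, Ideal.span_union, sup_assoc]

theorem ext_ofFn {r : ℕ} (g : Fin r → MvPolynomial σ K) :
    ext ⊥ (List.ofFn g).reverse = Ideal.span (Set.range g) := by
  rw [ext_eq, bot_sup_eq]
  congr 1
  ext x
  simp [List.mem_ofFn]

theorem regF_of_reg {r : ℕ} (g : Fin r → MvPolynomial σ K)
    (h : Reg ⊥ (List.ofFn g).reverse) : RegF g := by
  induction r with
  | zero => trivial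
  | succ r ih =>
    rw [List.ofFn_succ, List.reverse_cons, Pool.Agent.TH144.MB.reg_append] at h
    refine ⟨ih _ h.1, ?_⟩
    have h1 := h.2.1
    have h2 : ext ⊥ (List.ofFn fun i : Fin r => g i.succ).reverse =
        Ideal.span (Set.range (Fin.tail g)) := ext_ofFn _
    rw [h2] at h1
    exact h1

end list

/-- as many forms as variables -/
theorem regF_square {n : ℕ} (g : Fin n → MvPolynomial (Fin n) ℂ) (d : Fin n → ℕ)
    (hg : ∀ i, (g i).IsHomogeneous (d i)) (hd : ∀ i, 0 < d i)
    (hz : ∀ v : Fin n → ℂ, (∀ i, eval v (g i) = 0) → v = 0) : RegF g := by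
  have h := (Pool.Agent.TH144.MB.square (σ := Fin n) (K := ℂ)
    (List.ofFn fun i => (g i, d i)).reverse [] (by
      intro x hx
      rw [List.mem_reverse, List.mem_ofFn] at hx
      obtain ⟨i, rfl⟩ := hx
      exact ⟨hg i, hd i⟩) (by simp) (by
      intro v _ hv
      refine hz v fun i => ?_
      refine hv (g i, d i) ?_
      rw [List.mem_reverse, List.mem_ofFn]
      exact ⟨i, rfl⟩)).1
  rw [List.map_nil, List.nil_append, List.map_reverse, List.map_ofFn] at h
  exact regF_of_reg g h

/-- `n` forms and a linear form in `n + 1` variables -/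
theorem regF_line {n : ℕ} (g : Fin n → MvPolynomial (Fin (n + 1)) ℂ) (d : Fin n → ℕ)
    (hg : ∀ i, (g i).IsHomogeneous (d i)) (hd : ∀ i, 0 < d i) (l : Fin (n + 1) → ℂ)
    (hz : ∀ v : Fin (n + 1) → ℂ, eval v (lin l) = 0 → (∀ i, eval v (g i) = 0) → v = 0) :
    RegF g ∧ NZ (lin l) (Ideal.span (Set.range g)) := by
  have h := (Pool.Agent.TH144.MB.square (σ := Fin (n + 1)) (K := ℂ)
    (List.ofFn fun i => (g i, d i)).reverse [l] (by
      intro x hx
      rw [List.mem_reverse, List.mem_ofFn] at hx
      obtain ⟨i, rfl⟩ := hx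
      exact ⟨hg i, hd i⟩) (by simp; omega) (by
      intro v hv1 hv
      refine hz v (hv1 l (by simp)) fun i => ?_
      refine hv (g i, d i) ?_
      rw [List.mem_reverse, List.mem_ofFn]
      exact ⟨i, rfl⟩)).1
  rw [List.map_reverse, List.map_ofFn] at h
  have h1 := Pool.Agent.TH144.MB.reg_rotate (Pool.Agent.TH144.MB.lin_hom l)
    (List.ofFn (Prod.fst ∘ fun i => (g i, d i))).reverse ⊥ Pool.Agent.TH144.MB.hom_bot (by
      intro f hf
      rw [List.mem_reverse, List.mem_ofFn] at hf
      obtain ⟨i, rfl⟩ := hf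
      exact ⟨d i, hg i⟩) h
  refine ⟨regF_of_reg g h1.1, ?_⟩
  rw [← ext_ofFn]
  exact h1.2

/-- descent along a ring map with a linear projection -/
theorem RegF.descend {R S : Type} [CommRing R] [CommRing S] (φ : R →+* S) (π : S →+ R)
    (hπ : ∀ a s, π (φ a * s) = a * π s) (h1 : π 1 = 1) :
    ∀ {r : ℕ} {g : Fin r → R}, RegF (fun i => φ (g i)) → RegF g := by
  intro r
  induction r with
  | zero => intro g _; trivial
  | succ r ih =>
    intro g h
    refine ⟨ih h.1, fun c hc => ?_⟩
    obtain ⟨a, ha⟩ := (Ideal.mem_span_range_iff_exists_fun (R := R)).1 hc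
    have h2 : φ c ∈ Ideal.span (Set.range (Fin.tail fun i => φ (g i))) := by
      refine h.2 _ ?_
      rw [← map_mul, ← ha, map_sum]
      refine Ideal.sum_mem _ fun i _ => ?_
      rw [map_mul]
      exact Ideal.mul_mem_left _ _ (Ideal.subset_span ⟨i, rfl⟩)
    obtain ⟨b, hb⟩ := (Ideal.mem_span_range_iff_exists_fun (R := S)).1 h2
    have h3 : c = π (φ c) := by
      have := hπ c 1
      rw [mul_one, h1, mul_one] at this
      exact this.symm
    rw [h3, ← hb, map_sum]
    refine Ideal.sum_mem _ fun i _ => ?_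
    have : b i * (Fin.tail (fun i => φ (g i))) i = φ (g i.succ) * b i := mul_comm _ _
    rw [this, hπ]
    exact Ideal.mul_mem_right _ _ (Ideal.subset_span ⟨i, rfl⟩)

section weights

variable {n : ℕ} (w : Fin n → ℕ)

/-- the projection to the powers `z_i ^ (w_i)` -/
noncomputable def prj : MvPolynomial (Fin n) ℂ →ₗ[ℂ] MvPolynomial (Fin n) ℂ :=
  (basisMonomials (Fin n) ℂ).constr ℂ fun α : Fin n →₀ ℕ =>
    if ∀ i, w i ∣ α i then monomial (Finsupp.equivFunOnFinite.symm fun i => α i / w i) 1 else 0

theorem prj_monomial (α : Fin n →₀ ℕ) (a : ℂ) : prj w (monomial α a) =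
    if ∀ i, w i ∣ α i then monomial (Finsupp.equivFunOnFinite.symm fun i => α i / w i) a
      else 0 := by
  have h1 : (monomial α a : MvPolynomial (Fin n) ℂ) = a • monomial α 1 := by
    rw [smul_monomial, smul_eq_mul, mul_one]
  have h2 : (monomial α 1 : MvPolynomial (Fin n) ℂ) = basisMonomials (Fin n) ℂ α := by
    rw [coe_basisMonomials]
  rw [h1, map_smul, h2]
  unfold prj
  rw [Module.Basis.constr_basis]
  split_ifs
  · rw [smul_monomial, smul_eq_mul, mul_one]
  · rw [smul_zero]

/-- `x_i ↦ z_i ^ (w_i)` -/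
noncomputable def pw : MvPolynomial (Fin n) ℂ →ₐ[ℂ] MvPolynomial (Fin n) ℂ :=
  aeval fun i => X i ^ w i

theorem pw_monomial (α : Fin n →₀ ℕ) (a : ℂ) : pw w (monomial α a) =
    monomial (Finsupp.equivFunOnFinite.symm fun i => w i * α i) a := by
  unfold pw
  rw [aeval_monomial, monomial_eq, algebraMap_eq]
  congr 1
  rw [Finsupp.prod_fintype _ _ (fun i => pow_zero _), Finsupp.prod_fintype _ _ (fun i => pow_zero _)]
  refine Finset.prod_congr rfl fun i _ => ?_
  rw [← pow_mul]
  rfl

theorem prj_pw (hw : ∀ i, 0 < w i) (a s : MvPolynomial (Fin n) ℂ) :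
    prj w (pw w a * s) = a * prj w s := by
  induction a using MvPolynomial.induction_on' with
  | monomial α a =>
    induction s using MvPolynomial.induction_on' with
    | monomial β b =>
      rw [pw_monomial, monomial_mul, prj_monomial, prj_monomial]
      have h1 : (∀ i, w i ∣ ((Finsupp.equivFunOnFinite.symm fun i => w i * α i) + β :
          Fin n →₀ ℕ) i) ↔ ∀ i, w i ∣ β i := by
        refine forall_congr' fun i => ?_
        rw [Finsupp.add_apply]
        exact Nat.dvd_add_right (Dvd.intro _ rfl)
      by_cases h : ∀ i, w i ∣ β i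
      · rw [if_pos h, if_pos (h1.2 h), monomial_mul]
        have h2 : (Finsupp.equivFunOnFinite.symm fun i =>
            ((Finsupp.equivFunOnFinite.symm fun i => w i * α i) + β : Fin n →₀ ℕ) i / w i) =
            (α + Finsupp.equivFunOnFinite.symm fun i => β i / w i : Fin n →₀ ℕ) := by
          ext i
          rw [Finsupp.add_apply]
          change (w i * α i + β i) / w i = α i + β i / w i
          rw [Nat.mul_add_div (hw i)]
        rw [h2]
      · rw [if_neg h, if_neg (fun h2 => h (h1.1 h2)), mul_zero]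
    | add p q hp hq => rw [mul_add, map_add, map_add, hp, hq, mul_add]
  | add p q hp hq => rw [map_add, add_mul, map_add, hp, hq, add_mul]

theorem pw_hom (g : MvPolynomial (Fin n) ℂ) (N : ℕ) (hg : IsWeightedHomogeneous w g N) :
    (pw w g).IsHomogeneous N := by
  rw [g.as_sum, map_sum]
  refine IsHomogeneous.sum _ _ _ fun α hα => ?_
  rw [pw_monomial]
  refine isHomogeneous_monomial _ ?_
  have h1 := hg (mem_support_iff.1 hα)
  rw [← h1, Finsupp.degree_eq_sum, Finsupp.weight_apply, Finsupp.sum_fintype _ _ (by simp)]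
  refine Finset.sum_congr rfl fun i _ => ?_
  change w i * α i = α i • w i
  rw [smul_eq_mul, mul_comm]

/-- **The partial derivatives of a weighted homogeneous polynomial with an isolated critical
point are a regular sequence.** -/
theorem regF_whi (g : MvPolynomial (Fin n) ℂ) (N : ℕ) (hw : ∀ i, 0 < w i)
    (hg : IsWeightedHomogeneous w g N) (hN : ∀ i, w i < N)
    (hz : ∀ v : Fin n → ℂ, (∀ i, eval v (pderiv i g) = 0) → v = 0) :
    RegF fun i => pderiv i g := by
  refine RegF.descend (pw w).toRingHom (prj w).toAddMonoidHom (fun a s => prj_pw w hw a s) ?_ ?_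
  · change prj w (1 : MvPolynomial (Fin n) ℂ) = 1
    have := prj_pw w hw 1 1
    rw [map_one, one_mul, one_mul] at this
    have h2 := prj_monomial w 0 1
    rw [if_pos (by simp)] at h2
    have h3 : (Finsupp.equivFunOnFinite.symm fun i => (0 : Fin n →₀ ℕ) i / w i) =
        (0 : Fin n →₀ ℕ) := by
      ext i
      change (0 : ℕ) / w i = 0
      exact Nat.zero_div _
    rw [h3] at h2
    exact h2
  · refine regF_square _ (fun i => N - w i) (fun i => ?_) (fun i => Nat.sub_pos_of_lt (hN i)) ?_
    · exact pw_hom w _ _ (hg.pderiv (by have := hN i; omega))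
    · intro v hv
      have h1 : (fun i => v i ^ w i) = (0 : Fin n → ℂ) := by
        refine hz _ fun i => ?_
        rw [← hv i]
        change _ = eval v (pw w (pderiv i g))
        unfold pw
        have h2 : (eval v).comp (aeval fun i => X i ^ w i : MvPolynomial (Fin n) ℂ →ₐ[ℂ]
            MvPolynomial (Fin n) ℂ).toRingHom = eval fun i => v i ^ w i := by
          apply ringHom_ext
          · intro r
            simp
          · intro i
            simp
        exact (RingHom.congr_fun h2 _).symm
      funext i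
      have h2 := congrFun h1 i
      exact (pow_eq_zero_iff (hw i).ne').1 h2

end weights

end Pool.Agent.H940.LT
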