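import Pool.Agent.H940.LT.Root

set_option autoImplicit false
set_option linter.unusedSectionVars false

/-! # The root or a vector field, for products of powers -/

namespace Pool.Agent.H940.LT

open MvPolynomial
open Pool.Agent.H628R4.TP (weylS)

section symbol

variable {σ : Type} [Fintype σ] [DecidableEq σ]
  (f g : MvPolynomial σ ℂ) (v : σ → MvPolynomial σ ℂ) (hv : ∀ i, g * pderiv i f = f * v i)
include hv

/-- one more derivative in the symbol -/
theorem sym_D' (u : MvPolynomial σ ℂ) (β : σ →₀ ℕ) :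
    ∃ a : ℕ → MvPolynomial σ ℂ, (∀ j, β.degree < j → a j = 0) ∧
      a β.degree = u * ∏ i, (v i) ^ (β i) ∧
      ∀ s : ℕ, g ^ β.degree * D β (u * f ^ s) =
        (∑ j ∈ Finset.range (β.degree + 1), C ((s : ℂ) ^ j) * a j) * f ^ s := by
  have key : ∀ k : ℕ, ∀ β : σ →₀ ℕ, β.degree = k →
      ∃ a : ℕ → MvPolynomial σ ℂ, (∀ j, k < j → a j = 0) ∧
      a k = u * ∏ i, (v i) ^ (β i) ∧
      ∀ s : ℕ, g ^ k * D β (u * f ^ s) =
        (∑ j ∈ Finset.range (k + 1), C ((s : ℂ) ^ j) * a j) * f ^ s := by
    intro k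
    induction k with
    | zero =>
      intro β hβ
      rw [Finsupp.degree_eq_zero_iff] at hβ
      subst hβ
      refine ⟨fun j => if j = 0 then u else 0, ?_, ?_, ?_⟩
      · intro j hj
        exact if_neg (by omega)
      · simp
      · intro s
        rw [D_zero, Finset.sum_range_one]
        simp
    | succ k ih =>
      intro β hβ
      have hne : β ≠ 0 := by
        rintro rfl
        simp at hβ
      obtain ⟨i, hi⟩ := Finsupp.ne_iff.1 hne
      have hb : β = (β - Finsupp.single i 1) + Finsupp.single i 1 := by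
        rw [tsub_add_cancel_of_le]
        rw [Finsupp.single_le_iff]
        exact Nat.one_le_iff_ne_zero.2 hi
      have hdeg : (β - Finsupp.single i 1).degree = k := by
        have h1 := congrArg Finsupp.degree hb
        rw [map_add, Finsupp.degree_single, hβ] at h1
        omega
      obtain ⟨a, ha1, ha2, ha3⟩ := ih _ hdeg
      set β' := β - Finsupp.single i 1 with hβ'
      refine ⟨fun j => g * pderiv i (a j) - C (k : ℂ) * pderiv i g * a j +
        v i * (if j = 0 then 0 else a (j - 1)), ?_, ?_, ?_⟩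
      · intro j hj
        simp only
        rw [ha1 j (by omega), if_neg (by omega), ha1 (j - 1) (by omega)]
        simp
      · simp only
        rw [ha1 (k + 1) (by omega), if_neg (by omega), Nat.add_sub_cancel, ha2]
        have h2 : (∏ j, (v j) ^ (β j)) = (∏ j, (v j) ^ (β' j)) * v i := by
          rw [hb, ← Finset.mul_prod_erase Finset.univ (fun j => (v j) ^
            ((β' + Finsupp.single i 1 : σ →₀ ℕ) j)) (Finset.mem_univ i),
            ← Finset.mul_prod_erase Finset.univ
            (fun j => (v j) ^ (β' j)) (Finset.mem_univ i)]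
          have h3 : ∏ j ∈ Finset.univ.erase i, (v j) ^
              ((β' + Finsupp.single i 1 : σ →₀ ℕ) j) =
              ∏ j ∈ Finset.univ.erase i, (v j) ^ (β' j) := by
            refine Finset.prod_congr rfl fun j hj => ?_
            rw [Finsupp.add_apply, Finsupp.single_eq_of_ne (Finset.ne_of_mem_erase hj), add_zero]
          rw [h3, Finsupp.add_apply, Finsupp.single_eq_same, pow_succ]
          ring
        rw [h2]
        simp
        ring
      · intro s
        have h1 := ha3 s
        set G := D β' (u * f ^ s) with hG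
        set A := ∑ j ∈ Finset.range (k + 1), C ((s : ℂ) ^ j) * a j with hA
        have h2 : pderiv i (g ^ k * G) = pderiv i (A * f ^ s) := by rw [h1]
        have hpow : g * pderiv i (g ^ k) = C (k : ℂ) * pderiv i g * g ^ k := by
          rw [pderiv_pow]
          cases k with
          | zero => simp
          | succ n =>
            rw [Nat.add_sub_cancel, map_natCast]
            ring
        have hpowf : ∀ n : ℕ, g * pderiv i (f ^ n) = C (n : ℂ) * v i * f ^ n := by
          intro n
          rw [pderiv_pow]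
          cases n with
          | zero => simp
          | succ n =>
            rw [Nat.add_sub_cancel, map_natCast]
            linear_combination (((n + 1 : ℕ) : MvPolynomial σ ℂ) * f ^ n) * hv i
        rw [pderiv_mul, pderiv_mul] at h2
        have h3 : g * (pderiv i (g ^ k) * G + g ^ k * pderiv i G) =
            g * (pderiv i A * f ^ s + A * pderiv i (f ^ s)) := by rw [h2]
        have h4 : g ^ (k + 1) * pderiv i G =
            (g * pderiv i A + C (s : ℂ) * v i * A - C (k : ℂ) * pderiv i g * A) * f ^ s := by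
          have h5 : g * (pderiv i (g ^ k) * G + g ^ k * pderiv i G) =
              (g * pderiv i (g ^ k)) * G + g ^ (k + 1) * pderiv i G := by ring
          have h6 : g * (pderiv i A * f ^ s + A * pderiv i (f ^ s)) =
              g * pderiv i A * f ^ s + A * (g * pderiv i (f ^ s)) := by ring
          rw [h5, h6, hpow, hpowf] at h3
          have h7 : C (k : ℂ) * pderiv i g * g ^ k * G = C (k : ℂ) * pderiv i g * (A * f ^ s) := by
            rw [← h1]
            ring
          rw [h7] at h3
          linear_combination h3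
        rw [hb, D_succ, h4]
        congr 1
        have h8 : ∑ j ∈ Finset.range (k + 1 + 1), C ((s : ℂ) ^ j) *
            (g * pderiv i (a j) - C (k : ℂ) * pderiv i g * a j +
              v i * (if j = 0 then 0 else a (j - 1))) =
            (∑ j ∈ Finset.range (k + 1 + 1), C ((s : ℂ) ^ j) *
            (g * pderiv i (a j) - C (k : ℂ) * pderiv i g * a j)) +
            ∑ j ∈ Finset.range (k + 1 + 1), C ((s : ℂ) ^ j) *
              (v i * (if j = 0 then 0 else a (j - 1))) := by
          rw [← Finset.sum_add_distrib]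
          refine Finset.sum_congr rfl fun j _ => ?_
          ring
        rw [h8, Finset.sum_range_succ, ha1 (k + 1) (by omega), Finset.sum_range_succ'
          (fun j => C ((s : ℂ) ^ j) * (v i * (if j = 0 then 0 else a (j - 1))))]
        simp only [map_zero, mul_zero, sub_zero, add_zero, if_true, Nat.add_eq_zero_iff,
          one_ne_zero, and_false, if_false, Nat.add_sub_cancel]
        have h9 : pderiv i A = ∑ j ∈ Finset.range (k + 1), C ((s : ℂ) ^ j) * pderiv i (a j) := by
          rw [hA, map_sum]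
          refine Finset.sum_congr rfl fun j _ => ?_
          rw [pderiv_C_mul, C_mul']
        rw [h9, hA, Finset.mul_sum, Finset.mul_sum, Finset.mul_sum, ← Finset.sum_add_distrib,
          ← Finset.sum_sub_distrib, ← Finset.sum_add_distrib]
        refine Finset.sum_congr rfl fun j _ => ?_
        rw [pow_succ, map_mul]
        ring
  exact key _ β rfl

/-- the symbol of `Lam Φ` -/
theorem sym_Lam' (m : ℕ) (Φ : MvPolynomial σ (MvPolynomial σ ℂ))
    (hΦ : Φ.totalDegree ≤ m) :
    ∃ b : ℕ → MvPolynomial σ ℂ, b m = eval v (homogeneousComponent m Φ) ∧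
      ∀ s : ℕ, g ^ m * Lam Φ (f ^ s) =
        (∑ j ∈ Finset.range (m + 1), C ((s : ℂ) ^ j) * b j) * f ^ s := by
  classical
  choose a ha1 ha2 ha3 using fun β : σ →₀ ℕ => sym_D' f g v hv (coeff β Φ) β
  have hdeg : ∀ β ∈ Φ.support, β.degree ≤ m := fun β hβ => by
    have h1 := le_totalDegree hβ
    have h2 : β.degree = β.sum fun _ e => e := rfl
    omega
  refine ⟨fun j => ∑ β ∈ Φ.support, g ^ (m - β.degree) * a β j, ?_, fun s => ?_⟩
  · simp only
    rw [homogeneousComponent_apply, map_sum, Finset.sum_filter]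
    refine Finset.sum_congr rfl fun β hβ => ?_
    split_ifs with h
    · rw [← h, Nat.sub_self, pow_zero, one_mul, ha2, eval_monomial]
      congr 1
      rw [Finsupp.prod_fintype]
      intro i
      rw [pow_zero]
    · have := hdeg β hβ
      rw [ha1 β m (by omega), mul_zero]
  · unfold Lam
    rw [Finset.mul_sum]
    have h1 : ∀ β ∈ Φ.support, g ^ m * D β (coeff β Φ * f ^ s) =
        (∑ j ∈ Finset.range (m + 1), C ((s : ℂ) ^ j) * (g ^ (m - β.degree) * a β j)) * f ^ s := by
      intro β hβ
      have h2 := hdeg β hβ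
      have h3 : g ^ m = g ^ (m - β.degree) * g ^ β.degree := by
        rw [← pow_add]
        congr 1
        omega
      rw [h3, mul_assoc, ha3, ← mul_assoc, Finset.mul_sum]
      congr 1
      refine (Finset.sum_subset_zero_on_sdiff (Finset.range_subset_range.2 (by omega)) ?_ ?_)
      · intro j hj
        rw [Finset.mem_sdiff, Finset.mem_range, Finset.mem_range] at hj
        rw [ha1 β j (by omega), mul_zero, mul_zero]
      · intro j _
        ring
    rw [Finset.sum_congr rfl h1, ← Finset.sum_mul, Finset.sum_comm]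
    congr 1
    refine Finset.sum_congr rfl fun j _ => ?_
    rw [Finset.mul_sum]

theorem eval_homComp' (hf : f ≠ 0) (m : ℕ)
    (Φ : MvPolynomial σ (MvPolynomial σ ℂ)) (hΦ : Φ.totalDegree ≤ m)
    (h : ∀ s : ℕ, Lam Φ (f ^ s) = 0) :
    eval v (homogeneousComponent m Φ) = 0 := by
  obtain ⟨b, hb1, hb2⟩ := sym_Lam' f g v hv m Φ hΦ
  rw [← hb1]
  refine coeff_zero_of_forall m b fun s => ?_
  have h1 := hb2 s
  rw [h s, mul_zero] at h1
  exact (mul_eq_zero.1 h1.symm).resolve_right (pow_ne_zero _ hf)

theorem kill_of (hg : g ≠ 0) (η : σ → MvPolynomial σ ℂ) (hη : ∑ i, η i * v i = 0) :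
    ∑ i, η i * pderiv i f = 0 := by
  have h1 : g * ∑ i, η i * pderiv i f = f * ∑ i, η i * v i := by
    rw [Finset.mul_sum, Finset.mul_sum]
    refine Finset.sum_congr rfl fun i _ => ?_
    linear_combination η i * hv i
  rw [hη, mul_zero] at h1
  exact (mul_eq_zero.1 h1).resolve_left hg

/-- elements of `Rk` have a smaller degree up to a divergence -/
theorem Rk_red' (hg : g ≠ 0) (m : ℕ) (Θ : MvPolynomial σ (MvPolynomial σ ℂ))
    (hΘ : Θ ∈ Rk v m) :
    ∃ Φ : MvPolynomial σ (MvPolynomial σ ℂ), Φ.totalDegree ≤ m ∧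
      (∀ s : ℕ, Lam Θ (f ^ s) = Lam Φ (f ^ s)) ∧
      ∃ η : σ → MvPolynomial σ ℂ, ∑ i, η i * v i = 0 ∧ coeff 0 Φ = dv η := by
  classical
  unfold Rk at hΘ
  induction hΘ using AddSubmonoid.closure_induction with
  | mem Θ h =>
    obtain ⟨γ, η, hγ, hη, rfl⟩ := h
    refine ⟨monomial γ (dv η), ?_, fun s => Lam_linF η f (kill_of f g v hv hg η hη) γ s, ?_⟩
    · refine (totalDegree_monomial_le _ _).trans ?_
      rw [← hγ]
      rfl
    · by_cases h0 : γ = 0
      · refine ⟨η, hη, ?_⟩
        rw [coeff_monomial, if_pos h0]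
      · refine ⟨0, by simp, ?_⟩
        rw [coeff_monomial, if_neg h0]
        unfold dv
        simp
  | zero =>
    refine ⟨0, by simp, fun s => rfl, 0, by simp, ?_⟩
    unfold dv
    simp
  | add x y _ _ hx hy =>
    obtain ⟨Φ, h1, h2, η, h3, h4⟩ := hx
    obtain ⟨Ψ, h5, h6, θ, h7, h8⟩ := hy
    refine ⟨Φ + Ψ, (totalDegree_add _ _).trans (max_le h1 h5), fun s => ?_, η + θ, ?_, ?_⟩
    · rw [Lam_add, Lam_add, h2, h6]
    · rw [← add_zero (0 : MvPolynomial σ ℂ)]
      nth_rw 1 [← h3]
      rw [← h7, ← Finset.sum_add_distrib]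
      exact Finset.sum_congr rfl fun i _ => by rw [Pi.add_apply, add_mul]
    · rw [coeff_add, h4, h8, dv_add]

/-- **An operator which kills all the powers of `f`, when the family `v` is of linear type.** -/
theorem exists_field' (hf : f ≠ 0) (hg : g ≠ 0) (hL : LTy v) :
    ∀ (m : ℕ) (Φ : MvPolynomial σ (MvPolynomial σ ℂ)), Φ.totalDegree ≤ m →
      (∀ s : ℕ, Lam Φ (f ^ s) = 0) →
      ∃ η : σ → MvPolynomial σ ℂ, ∑ i, η i * v i = 0 ∧ coeff 0 Φ + dv η = 0 := by
  intro m
  induction m with
  | zero =>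
    intro Φ hΦ h
    refine ⟨0, by simp, ?_⟩
    have h1 : Φ = C (coeff 0 Φ) := (totalDegree_eq_zero_iff_eq_C.1 (Nat.le_zero.1 hΦ))
    have h2 := h 0
    rw [h1, ← monomial_zero', Lam_monomial, D_zero, pow_zero, mul_one] at h2
    rw [h2]
    unfold dv
    simp
  | succ m ih =>
    intro Φ hΦ h
    set Θ := homogeneousComponent (m + 1) Φ with hΘ
    have h1 : Θ ∈ LinI v :=
      hL (m + 1) Θ (homogeneousComponent_isHomogeneous _ _) (eval_homComp' f g v hv hf _ Φ hΦ h)
    have h2 : Θ ∈ Rk v m := by
      have := homComp_mem _ Θ h1 m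
      rwa [hΘ, homogeneousComponent_of_mem (homogeneousComponent_isHomogeneous (m + 1) Φ),
        if_pos rfl] at this
    obtain ⟨Ψ, h3, h4, η, h5, h6⟩ := Rk_red' f g v hv hg m Θ h2
    have h7 : (Φ - Θ + Ψ).totalDegree ≤ m := by
      refine (totalDegree_add _ _).trans (max_le ?_ h3)
      have h8 : Φ - Θ = ∑ i ∈ Finset.range (m + 1), homogeneousComponent i Φ := by
        have h9 : ∑ i ∈ Finset.range (m + 1 + 1), homogeneousComponent i Φ = Φ := by
          rw [← Finset.sum_subset (Finset.range_subset_range.2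
            (show Φ.totalDegree + 1 ≤ m + 1 + 1 by omega)), sum_homogeneousComponent]
          intro j _ hj
          rw [Finset.mem_range, not_lt] at hj
          exact homogeneousComponent_eq_zero _ _ (by omega)
        rw [Finset.sum_range_succ, ← hΘ] at h9
        linear_combination -h9
      rw [h8]
      refine totalDegree_finsetSum_le fun i hi => ?_
      rw [Finset.mem_range] at hi
      refine (homogeneousComponent_isHomogeneous i Φ).totalDegree_le.trans (by omega)
    have h10 : ∀ s : ℕ, Lam (Φ - Θ + Ψ) (f ^ s) = 0 := by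
      intro s
      rw [Lam_add, Lam_sub, h s, h4 s]
      ring
    obtain ⟨θ, h11, h12⟩ := ih _ h7 h10
    refine ⟨η + θ, ?_, ?_⟩
    · rw [← add_zero (0 : MvPolynomial σ ℂ)]
      nth_rw 1 [← h5]
      rw [← h11, ← Finset.sum_add_distrib]
      exact Finset.sum_congr rfl fun i _ => by rw [Pi.add_apply, add_mul]
    · have h13 : coeff 0 Θ = 0 := by
        refine (homogeneousComponent_isHomogeneous (m + 1) Φ).coeff_eq_zero ?_
        simp
      rw [coeff_add, coeff_sub, h13, h6] at h12
      rw [dv_add, ← h12]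
      ring

/-- **The root `-τ / N`, or a vector field which kills `v` and has a non-zero divergence at `0`.** -/
theorem root_or_field' (hf : f ≠ 0) (hg : g ≠ 0) (hf0 : constantCoeff f = 0)
    (hL : LTy v) (e : σ → MvPolynomial σ ℂ) (N : ℂ) (hN : N ≠ 0)
    (he : ∑ i, e i * pderiv i f = C N * f) (he0 : ∀ i, constantCoeff (e i) = 0)
    (H : MvPolynomial σ ℂ) (hH : constantCoeff H ≠ 0) (b : Polynomial ℂ)
    (P : ℕ →₀ weylS σ) (hP : ∀ s : ℕ, H * (C (b.eval (s : ℂ)) * f ^ s) =
      P.sum fun m Q => ((s : ℂ) ^ m) • (Q : Module.End ℂ (MvPolynomial σ ℂ)) (f ^ (s + 1))) :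
    b.eval (- constantCoeff (dv e) / N) = 0 ∨
      ∃ η : σ → MvPolynomial σ ℂ, ∑ i, η i * v i = 0 ∧ constantCoeff (dv η) ≠ 0 := by
  classical
  rw [or_iff_not_imp_left]
  intro hb
  -- the left side
  have hleft : ∃ Ψ : MvPolynomial σ (MvPolynomial σ ℂ),
      (∀ s : ℕ, Lam Ψ (f ^ s) = H * (C (b.eval (s : ℂ)) * f ^ s)) ∧
      cst Ψ = b.eval (- constantCoeff (dv e) / N) * constantCoeff H := by
    refine ⟨∑ m ∈ Finset.range (b.natDegree + 1), C (C (b.coeff m)) * (Sop e N)^[m] (C H), ?_, ?_⟩
    · intro s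
      rw [Lam_sum]
      have h1 : ∀ m, Lam (C (C (b.coeff m)) * (Sop e N)^[m] (C H)) (f ^ s) =
          C (b.coeff m * (s : ℂ) ^ m) * (H * f ^ s) := by
        intro m
        rw [Lam_smul, Lam_Sop_iter e N hN f he, ← monomial_zero', Lam_monomial, D_zero, smul_smul,
          smul_eq_C_mul]
      rw [Finset.sum_congr rfl fun m _ => h1 m, ← Finset.sum_mul, ← map_sum,
        ← Polynomial.eval_eq_sum_range]
      ring
    · have h0 : cst (C H : MvPolynomial σ (MvPolynomial σ ℂ)) = constantCoeff H := by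
        unfold cst
        rw [coeff_zero_C]
      have hsum : ∀ (s : Finset ℕ) (g : ℕ → MvPolynomial σ (MvPolynomial σ ℂ)),
          cst (∑ m ∈ s, g m) = ∑ m ∈ s, cst (g m) := by
        intro s g
        unfold cst
        rw [coeff_sum, map_sum]
      rw [hsum, Polynomial.eval_eq_sum_range, Finset.sum_mul]
      refine Finset.sum_congr rfl fun m _ => ?_
      rw [cst_smul, cst_Sop_iter e N he0, h0]
      ring
  have hright : ∀ P : ℕ →₀ weylS σ, ∃ Ψ : MvPolynomial σ (MvPolynomial σ ℂ),
      (∀ s : ℕ, Lam Ψ (f ^ s) = P.sum fun m Q => ((s : ℂ) ^ m) •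
        (Q : Module.End ℂ (MvPolynomial σ ℂ)) (f ^ (s + 1))) ∧ cst Ψ = 0 := by
    intro P
    induction P using Finsupp.induction_linear with
    | zero =>
      refine ⟨0, fun s => ?_, ?_⟩
      · rw [Lam_zero, Finsupp.sum_zero_index]
      · unfold cst
        simp
    | add P Q hP hQ =>
      obtain ⟨Ψ1, h1, h2⟩ := hP
      obtain ⟨Ψ2, h3, h4⟩ := hQ
      refine ⟨Ψ1 + Ψ2, fun s => ?_, ?_⟩
      · rw [Lam_add, h1, h3, Finsupp.sum_add_index' (fun m => by simp) (fun m Q Q' => by
          rw [← smul_add]; rfl)]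
      · rw [cst_add, h2, h4, add_zero]
    | single m Q =>
      obtain ⟨Ψ, hΨ⟩ := exists_Lam (Q : Module.End ℂ (MvPolynomial σ ℂ)) Q.2 (C 1)
      refine ⟨(Sop e N)^[m] (C f * Ψ), fun s => ?_, ?_⟩
      · rw [Finsupp.sum_single_index (by simp), Lam_Sop_iter e N hN f he, Lam_C_mul, ← pow_succ',
          ← hΨ]
        rw [← monomial_zero', Lam_monomial, D_zero, one_mul]
      · rw [cst_Sop_iter e N he0]
        unfold cst
        rw [coeff_C_mul, map_mul, hf0, zero_mul, mul_zero]
  obtain ⟨Ψ1, h1, h2⟩ := hleft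
  obtain ⟨Ψ2, h3, h4⟩ := hright P
  obtain ⟨η, h5, h6⟩ := exists_field' f g v hv hf hg hL _ (Ψ1 - Ψ2) le_rfl (fun s => by
    rw [Lam_sub, h1, h3, hP, sub_self])
  refine ⟨η, h5, fun h7 => ?_⟩
  have h8 := congrArg constantCoeff h6
  rw [map_add, h7, map_zero, coeff_sub, map_sub, add_zero] at h8
  change cst Ψ1 - cst Ψ2 = 0 at h8
  rw [h2, h4, sub_zero] at h8
  exact (mul_ne_zero hb hH) h8

end symbol

end Pool.Agent.H940.LT
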